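import Pool.Agent.L7h32.AA.Asm
import Pool.Agent.L7h34.AA.Mol2

/-!
# Project AA: paths of almost affine topological embeddings
-/

set_option autoImplicit false
set_option linter.unusedSectionVars false

open Set Filter Topology Metric MeasureTheory
open scoped ContDiff

noncomputable section

namespace Pool.Agent.L7h32.AA

theorem exists_pos_low {Z : Type} [TopologicalSpace Z] {S : Set Z} (hS : IsCompact S) {u : Z → ℝ}
    (hu : ContinuousOn u S) (hpos : ∀ z ∈ S, 0 < u z) : ∃ m : ℝ, 0 < m ∧ ∀ z ∈ S, m ≤ u z := by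
  rcases S.eq_empty_or_nonempty with h | h
  · exact ⟨1, one_pos, fun z hz => by rw [h] at hz; exact absurd hz (notMem_empty z)⟩
  · obtain ⟨z, hz, h1⟩ := hS.exists_isMinOn h hu
    exact ⟨u z, hpos z hz, fun w hw => h1 hw⟩

section paths

variable {E F : Type} [NormedAddCommGroup E] [NormedSpace ℝ E] [FiniteDimensional ℝ E]
  [MeasurableSpace E] [BorelSpace E] {μ : Measure E} [μ.IsAddHaarMeasure]
  [NormedAddCommGroup F] [NormedSpace ℝ F] [FiniteDimensional ℝ F]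
  {K U V : Set E} {N : E → E} {t₁ C : ℝ}

/-- the mollification is close to the values -/
theorem moll_close {η : E → ℝ} (h : Ker μ η) {U : Set E} {Φ : E → F} (hU : IsOpen U)
    (hΦ : ContinuousOn Φ U) (x : E) (t : ℝ) (hx : ∀ y : E, ‖y‖ ≤ 1 → x + t • y ∈ U) (c : F) {β : ℝ}
    (hβ : ∀ y : E, ‖y‖ ≤ 1 → ‖Φ (x + t • y) - c‖ ≤ β) : ‖moll μ η Φ t x - c‖ ≤ β := by
  have e3 : c = ∫ y, η y • c ∂μ := by rw [integral_smul_const, h.mass, one_smul]
  have i1 := int_moll h hU hΦ x t hx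
  have i2 : Integrable (fun y => η y • c) μ := h.integrable.smul_const _
  unfold moll
  conv_lhs => rw [e3]
  rw [← integral_sub i1 i2]
  have e2 : β = ∫ y, η y * β ∂μ := by rw [integral_mul_const, h.mass, one_mul]
  rw [e2]
  refine norm_integral_le_of_norm_le (h.integrable.mul_const _) (Eventually.of_forall fun y => ?_)
  rw [← smul_sub, norm_smul, Real.norm_eq_abs, abs_of_nonneg (h.nonneg y)]
  rcases le_or_gt ‖y‖ 1 with hy | hy
  · exact mul_le_mul_of_nonneg_left (hβ y hy) (h.nonneg y)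
  · rw [h.supp y hy]
    simp

theorem moll_sub {η : E → ℝ} (h : Ker μ η) {U : Set E} {Φ Ψ : E → F} (hU : IsOpen U)
    (hΦ : ContinuousOn Φ U) (hΨ : ContinuousOn Ψ U) (x : E) (t : ℝ)
    (hx : ∀ y : E, ‖y‖ ≤ 1 → x + t • y ∈ U) :
    moll μ η Φ t x - moll μ η Ψ t x = moll μ η (fun z => Φ z - Ψ z) t x := by
  unfold moll
  rw [← integral_sub (int_moll h hU hΦ x t hx) (int_moll h hU hΨ x t hx)]
  refine integral_congr_ae (Eventually.of_forall fun y => ?_)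
  simp only [smul_sub]

/-- the embedding property of the mollifications of almost affine maps -/
theorem emb_moll' (hL : S_LOW) (hR : Ret K U N) (hp : Pi0 K U N t₁ C V)
    {η : E → ℝ} (h : Ker μ η) {Λ ε r₀ : ℝ} (hΛ2 : 2 ≤ Λ)
    (hΛ : ∀ v : E, ∫ y, |η y - η (y + v)| ∂μ ≤ Λ * ‖v‖ ∧ ∫ y, |η y - η (y + v)| ∂μ ≤ 2)
    (hε0 : 0 ≤ ε) (hε : ε * ((C + 1) * (Λ + 2)) ≤ 1 / 4)
    {φ : E → F} (hφ : ContinuousOn (fun x => φ (N x)) U) (hA : Alm K ε r₀ φ)
    {t : ℝ} (ht : 0 < t) (ht1 : t < t₁) (ht2 : (C + 1) * t ≤ r₀)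
    (hfar : ∀ x ∈ K, ∀ y ∈ K, r₀ < C * t + ‖x - y‖ →
      moll μ η (fun z => φ (N z)) t x ≠ moll μ η (fun z => φ (N z)) t y) :
    Emb K U N (fun x => moll μ η (fun z => φ (N z)) t x) := by
  have hC := hp.one
  have hsm : ContDiffOn ℝ ∞ (fun x => moll μ η (fun z => φ (N z)) t (N x)) U :=
    (Pool.Agent.L7h34.AA.mol2 h hR.opn hp.opn hp.pos hp.inU hφ ht ht1).comp hR.smooth
      fun x hx => hp.sub (hR.maps x hx)
  refine hL E F K U N _ hR hsm ?_ ?_
  · intro x hx y hy hxy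
    by_contra hne
    have hd : 0 < ‖x - y‖ := norm_pos_iff.2 (sub_ne_zero.2 hne)
    rcases le_or_gt (C * t + ‖x - y‖) r₀ with h1 | h1
    · obtain ⟨l, T, b, hl, -, -, -, h2⟩ := low_core hR hp h hΛ2 hΛ hε0 hε hφ hA hx hy
        ht ht1 (R := C * t + ‖x - y‖) le_rfl (by
          have a1 := le_max_left t ‖x - y‖
          have a2 := le_max_right t ‖x - y‖
          nlinarith) h1
      rw [hxy, sub_self, norm_zero] at h2
      have : 0 < l * ‖x - y‖ / 4 := by positivity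
      linarith
    · exact hfar x hx y hy h1 hxy
  · intro x hx
    obtain ⟨l, T, b, hl, hT, hb⟩ := hA x hx ((C + 1) * t) (by positivity) ht2
    refine ⟨l / 4, by positivity, t, ht, fun y hy hyx => ?_⟩
    have h3 : ‖x - y‖ ≤ t := by
      rw [norm_sub_rev]
      exact hyx.le
    have key := (cmp hR hp h hΛ hφ hx hy ht ht1 (R := (C + 1) * t) (by linarith) T b
      (β := ε * l * ((C + 1) * t)) (fun z hz hz2 => hb _ (hR.maps z hz) hz2)).1
    have main : ε * l * ((C + 1) * t) * (Λ * (‖x - y‖ / t)) ≤ l * ‖x - y‖ / 4 := by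
      calc _ = (ε * ((C + 1) * Λ)) * (l * ‖x - y‖) := by field_simp
        _ ≤ (ε * ((C + 1) * (Λ + 2))) * (l * ‖x - y‖) := by
            gcongr
            linarith
        _ ≤ 1 / 4 * (l * ‖x - y‖) := by gcongr
        _ = _ := by ring
    have h2 := moll_N_low hR hp h hx hy (t := t) (by rwa [abs_of_pos ht])
    have h3 := hT (moll μ η N t x - moll μ η N t y)
    have h4 := norm_sub_norm_le (T (moll μ η N t x - moll μ η N t y))
      (moll μ η (fun x => φ (N x)) t x - moll μ η (fun x => φ (N x)) t y)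
    rw [norm_sub_rev (T (moll μ η N t x - moll μ η N t y))] at h4
    nlinarith

/-- (b) a path of almost affine topological embeddings between smooth embeddings can be replaced by
an ambient isotopy -/
theorem path_top (hP : S_PATH) (hL : S_LOW) (hM : S_MOL) (hCt : S_CTS) (hR : Ret K U N)
    (hp : Pi0 K U N t₁ C V) {η : E → ℝ} (h : Ker μ η) {Λ ε r₀ : ℝ} (hΛ2 : 2 ≤ Λ)
    (hΛ : ∀ v : E, ∫ y, |η y - η (y + v)| ∂μ ≤ Λ * ‖v‖ ∧ ∫ y, |η y - η (y + v)| ∂μ ≤ 2)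
    (hε0 : 0 ≤ ε) (hε : ε * ((C + 1) * (Λ + 2)) ≤ 1 / 4) (hr₀ : 0 < r₀)
    {f : ℝ → E → F} (hf : ContinuousOn (fun p : ℝ × E => f p.1 p.2) (Icc 0 1 ×ˢ K))
    (hinj : ∀ s ∈ Icc (0 : ℝ) 1, InjOn (f s) K) (hA : ∀ s ∈ Icc (0 : ℝ) 1, Alm K ε r₀ (f s))
    (h0 : Emb K U N (f 0)) (h1 : Emb K U N (f 1)) : Amb K (f 0) (f 1) := by
  have hC1 := hp.one
  have ht1 := hp.pos
  have hcpt : IsCompact ((Icc (0 : ℝ) 1 ×ˢ (K ×ˢ K)) : Set (ℝ × E × E)) :=
    isCompact_Icc.prod (hR.cpt.prod hR.cpt)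
  have c1 : ContinuousOn (fun p : ℝ × E × E => f p.1 p.2.1) (Icc (0 : ℝ) 1 ×ˢ (K ×ˢ K)) :=
    hf.comp (g := fun p : ℝ × E => f p.1 p.2) (f := fun p : ℝ × E × E => ((p.1, p.2.1) : ℝ × E))
      (by fun_prop) fun p hp => ⟨hp.1, hp.2.1⟩
  have c2 : ContinuousOn (fun p : ℝ × E × E => f p.1 p.2.2) (Icc (0 : ℝ) 1 ×ˢ (K ×ˢ K)) :=
    hf.comp (g := fun p : ℝ × E => f p.1 p.2) (f := fun p : ℝ × E × E => ((p.1, p.2.2) : ℝ × E))
      (by fun_prop) fun p hp => ⟨hp.1, hp.2.2⟩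
  have c3 : ContinuousOn (fun p : ℝ × E × E => ‖f p.1 p.2.1 - f p.1 p.2.2‖)
      (Icc (0 : ℝ) 1 ×ˢ (K ×ˢ K)) := (c1.sub c2).norm
  have c4 : Continuous (fun p : ℝ × E × E => ‖p.2.1 - p.2.2‖) := by fun_prop
  -- separation
  obtain ⟨m, hm, hm2⟩ : ∃ m : ℝ, 0 < m ∧ ∀ s ∈ Icc (0 : ℝ) 1, ∀ x ∈ K, ∀ y ∈ K,
      r₀ / 2 ≤ ‖x - y‖ → m ≤ ‖f s x - f s y‖ := by
    have k1 : IsCompact ((Icc (0 : ℝ) 1 ×ˢ (K ×ˢ K)) ∩ {p : ℝ × E × E | r₀ / 2 ≤ ‖p.2.1 - p.2.2‖}) :=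
      hcpt.inter_right (isClosed_le continuous_const c4)
    obtain ⟨m, hm, h2⟩ := exists_pos_low k1 (c3.mono inter_subset_left) (fun p hp => by
      refine norm_pos_iff.2 (sub_ne_zero.2 fun e => ?_)
      have e2 := hinj p.1 hp.1.1 hp.1.2.1 hp.1.2.2 e
      have e3 : r₀ / 2 ≤ ‖p.2.1 - p.2.2‖ := hp.2
      rw [e2, sub_self, norm_zero] at e3
      linarith)
    exact ⟨m, hm, fun s hs x hx y hy hxy => h2 (s, x, y) ⟨⟨hs, hx, hy⟩, hxy⟩⟩
  -- equicontinuity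
  obtain ⟨w, hw, hw2⟩ : ∃ w : ℝ, 0 < w ∧ ∀ s ∈ Icc (0 : ℝ) 1, ∀ x ∈ K, ∀ y ∈ K,
      ‖x - y‖ < w → ‖f s x - f s y‖ ≤ m / 4 := by
    have k1 : IsCompact ((Icc (0 : ℝ) 1 ×ˢ (K ×ˢ K)) ∩
        (fun p : ℝ × E × E => ‖f p.1 p.2.1 - f p.1 p.2.2‖) ⁻¹' Ici (m / 4)) :=
      hcpt.of_isClosed_subset (c3.preimage_isClosed_of_isClosed hcpt.isClosed isClosed_Ici)
        inter_subset_left
    obtain ⟨w, hw, h2⟩ := exists_pos_low k1 c4.continuousOn (fun p hp => by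
      refine norm_pos_iff.2 (sub_ne_zero.2 fun e => ?_)
      have e3 : m / 4 ≤ ‖f p.1 p.2.1 - f p.1 p.2.2‖ := hp.2
      rw [e, sub_self, norm_zero] at e3
      linarith)
    refine ⟨w, hw, fun s hs x hx y hy hxy => ?_⟩
    by_contra hcon
    exact absurd (h2 (s, x, y) ⟨⟨hs, hx, hy⟩, (not_le.1 hcon).le⟩) (not_le.2 hxy)
  -- the scale
  obtain ⟨τ, hτ, hτ1, hτ2, hτ3⟩ : ∃ τ : ℝ, 0 < τ ∧ τ < t₁ ∧ (C + 1) * τ ≤ r₀ / 2 ∧ C * τ < w := by
    refine ⟨min (t₁ / 2) (min (r₀ / 2 / (C + 1)) (w / (2 * C))), by positivity, ?_, ?_, ?_⟩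
    · exact (min_le_left _ _).trans_lt (by linarith)
    · calc (C + 1) * min (t₁ / 2) (min (r₀ / 2 / (C + 1)) (w / (2 * C)))
          ≤ (C + 1) * (r₀ / 2 / (C + 1)) := by
            gcongr
            exact (min_le_right _ _).trans (min_le_left _ _)
        _ = r₀ / 2 := by field_simp
    · calc C * min (t₁ / 2) (min (r₀ / 2 / (C + 1)) (w / (2 * C))) ≤ C * (w / (2 * C)) := by
            gcongr
            exact (min_le_right _ _).trans (min_le_right _ _)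
        _ = w / 2 := by field_simp
        _ < w := by linarith
  have hcont : ∀ s ∈ Icc (0 : ℝ) 1, ContinuousOn (fun x => f s (N x)) U := by
    intro s hs
    exact hf.comp (g := fun p : ℝ × E => f p.1 p.2) (f := fun x : E => ((s, N x) : ℝ × E))
      (continuousOn_const.prodMk hR.smooth.continuousOn) fun x hx => ⟨hs, hR.maps x hx⟩
  have hclose : ∀ s ∈ Icc (0 : ℝ) 1, ∀ t : ℝ, 0 < t → t ≤ τ → ∀ x ∈ K,
      ‖moll μ η (fun z => f s (N z)) t x - f s x‖ ≤ m / 4 := by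
    intro s hs t ht htτ x hx
    have htt : |t| < t₁ := by rw [abs_of_pos ht]; linarith
    refine moll_close h hR.opn (hcont s hs) x t (hp.mem (hp.sub hx) htt) _ fun y hy => ?_
    have hz : ‖t • y‖ ≤ t := by
      rw [norm_smul, Real.norm_eq_abs, abs_of_pos ht]
      nlinarith
    have hU := hp.mem (hp.sub hx) htt y hy
    refine hw2 s hs _ (hR.maps _ hU) x hx ?_
    have h3 := hp.near x hx (t • y) (by linarith)
    have h4 : C * ‖t • y‖ ≤ C * τ := by gcongr; linarith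
    linarith
  have hfar : ∀ s ∈ Icc (0 : ℝ) 1, ∀ t : ℝ, 0 < t → t ≤ τ → ∀ x ∈ K, ∀ y ∈ K,
      r₀ < C * t + ‖x - y‖ →
      moll μ η (fun z => f s (N z)) t x ≠ moll μ η (fun z => f s (N z)) t y := by
    intro s hs t ht htτ x hx y hy hxy he
    have h3 : C * t ≤ r₀ / 2 := by nlinarith
    have h4 := hm2 s hs x hx y hy (by linarith)
    have h5 := hclose s hs t ht htτ x hx
    have h6 := hclose s hs t ht htτ y hy
    rw [he] at h5
    have h7 : ‖f s x - f s y‖ ≤ ‖moll μ η (fun z => f s (N z)) t y - f s x‖ +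
        ‖moll μ η (fun z => f s (N z)) t y - f s y‖ := by
      rw [norm_sub_rev _ (f s x)]
      exact (norm_sub_le_norm_sub_add_norm_sub _ _ _)
    linarith
  have hemb : ∀ s ∈ Icc (0 : ℝ) 1, ∀ t : ℝ, 0 < t → t ≤ τ →
      Emb K U N (fun x => moll μ η (fun z => f s (N z)) t x) := by
    intro s hs t ht htτ
    exact emb_moll' hL hR hp h hΛ2 hΛ hε0 hε (hcont s hs) (hA s hs) ht (by linarith)
      (by nlinarith) (hfar s hs t ht htτ)
  -- the end points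
  have hend : ∀ s ∈ Icc (0 : ℝ) 1, Emb K U N (f s) →
      Amb K (f s) (fun x => moll μ η (fun z => f s (N z)) τ x) := by
    intro s hs hE
    refine path_moll hP hM hCt hR hp h hE.smooth hτ.le hτ1 fun t ht => ?_
    rcases ht.1.eq_or_lt with h0 | h0
    · refine hE.congr hR fun x hx => ?_
      rw [← h0, moll_zero h, hR.fix x hx]
    · exact hemb s hs t h0 ht.2
  have e0 := hend 0 (by simp) h0
  have e1 := hend 1 (by simp) h1
  refine e0.trans (Amb.trans ?_ e1.symm)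
  refine hP E F K U N (fun s x => moll μ η (fun z => f s (N z)) τ x) hR
    (fun s hs => hemb s hs τ hτ le_rfl) fun s hs δ hδ => ?_
  -- continuity in s
  set β : ℝ := δ * min 1 (τ / (Λ + 1)) with hβ
  have hβ0 : 0 < β := by positivity
  obtain ⟨τ', hτ', h5⟩ : ∃ τ' : ℝ, 0 < τ' ∧ ∀ s' ∈ Icc (0 : ℝ) 1, |s' - s| < τ' → ∀ x ∈ K,
      ‖f s' x - f s x‖ ≤ β := by
    have hcpt2 : IsCompact ((Icc (0 : ℝ) 1 ×ˢ K) : Set (ℝ × E)) := isCompact_Icc.prod hR.cpt
    have c5 : ContinuousOn (fun p : ℝ × E => ‖f p.1 p.2 - f s p.2‖) (Icc (0 : ℝ) 1 ×ˢ K) := by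
      refine (hf.sub ?_).norm
      exact hf.comp (g := fun p : ℝ × E => f p.1 p.2) (f := fun p : ℝ × E => ((s, p.2) : ℝ × E))
        (by fun_prop) fun p hp => ⟨hs, hp.2⟩
    have k1 : IsCompact ((Icc (0 : ℝ) 1 ×ˢ K) ∩
        (fun p : ℝ × E => ‖f p.1 p.2 - f s p.2‖) ⁻¹' Ici β) :=
      hcpt2.of_isClosed_subset (c5.preimage_isClosed_of_isClosed hcpt2.isClosed isClosed_Ici)
        inter_subset_left
    obtain ⟨w', hw', h2⟩ := exists_pos_low k1 (u := fun p : ℝ × E => |p.1 - s|)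
      (by fun_prop) (fun p hp => by
      refine abs_pos.2 (sub_ne_zero.2 fun e => ?_)
      have e3 : β ≤ ‖f p.1 p.2 - f s p.2‖ := hp.2
      rw [e, sub_self, norm_zero] at e3
      linarith)
    refine ⟨w', hw', fun s' hs' hss x hx => ?_⟩
    by_contra hcon
    exact absurd (h2 (s', x) ⟨⟨hs', hx⟩, (not_le.1 hcon).le⟩) (not_le.2 hss)
  refine ⟨τ', hτ', fun s' hs' hss => ?_⟩
  have hb := h5 s' hs' hss
  have hττ : |τ| < t₁ := by rwa [abs_of_pos hτ]
  have hW : ContinuousOn (fun z => f s' (N z) - f s (N z)) U := (hcont s' hs').sub (hcont s hs)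
  have e : ∀ x ∈ K, moll μ η (fun z => f s' (N z)) τ x - moll μ η (fun z => f s (N z)) τ x =
      moll μ η (fun z => f s' (N z) - f s (N z)) τ x := fun x hx =>
    moll_sub h hR.opn (hcont s' hs') (hcont s hs) x τ (hp.mem (hp.sub hx) hττ)
  have hbb : ∀ x ∈ K, ∀ y : E, ‖y‖ ≤ 1 →
      ‖f s' (N (x + τ • y)) - f s (N (x + τ • y))‖ ≤ β := fun x hx y hy =>
    hb _ (hR.maps _ (hp.mem (hp.sub hx) hττ y hy))
  have hβ1 : β ≤ δ := by
    calc β ≤ δ * 1 := by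
          rw [hβ]
          gcongr
          exact min_le_left _ _
      _ = δ := mul_one _
  have hβ2 : β * (Λ / τ) ≤ δ := by
    calc β * (Λ / τ) ≤ (δ * (τ / (Λ + 1))) * (Λ / τ) := by
          rw [hβ]
          gcongr
          exact min_le_right _ _
      _ = δ * (Λ / (Λ + 1)) := by field_simp
      _ ≤ δ * 1 := by
          gcongr
          rw [div_le_one (by linarith)]
          linarith
      _ = δ := mul_one _
  refine ⟨fun x hx => ?_, fun x hx y hy => ?_⟩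
  · simp only [e x hx]
    have := moll_close h hR.opn hW x τ (hp.mem (hp.sub hx) hττ) 0 (β := β) (fun y hy => by
      rw [sub_zero]
      exact hbb x hx y hy)
    rw [sub_zero] at this
    linarith
  · simp only [e x hx, e y hy]
    have := (moll_diff h hΛ hR.opn hW x y (β := β) hτ (hp.mem (hp.sub hx) hττ)
      (hp.mem (hp.sub hy) hττ) (hbb x hx) (hbb y hy)).1
    calc _ ≤ _ := this
      _ = β * (Λ / τ) * ‖x - y‖ := by ring
      _ ≤ δ * ‖x - y‖ := by gcongr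

end paths

end Pool.Agent.L7h32.AA
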