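import Pool.Agent.L7h32.AA.Est

/-!
# Project AA: assembly of the paths
-/

set_option autoImplicit false
set_option linter.unusedSectionVars false

open Set Filter Topology Metric MeasureTheory
open scoped ContDiff

noncomputable section

namespace Pool.Agent.L7h32.AA

section cdiff

variable {F : Type} [NormedAddCommGroup F] [NormedSpace ℝ F]

theorem CDiff.comp {G H : F → F} (hG : CDiff G) (hH : CDiff H) : CDiff (fun x => G (H x)) := by
  obtain ⟨g1, G', g2, g3, g4, C, hC, g5⟩ := hG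
  obtain ⟨h1, H', h2, h3, h4, D, hD, h5⟩ := hH
  refine ⟨g1.comp h1, fun x => H' (G' x), h2.comp g2, fun x => ?_, fun x => ?_, C ∪ D, hC.union hD,
    fun x hx => ?_⟩
  · simp only [g3, h3]
  · simp only [g4, h4]
  · change G (H x) = x
    rw [h5 x fun h => hx (Or.inr h), g5 x fun h => hx (Or.inl h)]

theorem CDiff.inv {G : F → F} (hG : CDiff G) : ∃ G' : F → F, CDiff G' ∧ ∀ x, G' (G x) = x := by
  obtain ⟨g1, G', g2, g3, g4, C, hC, g5⟩ := hG
  refine ⟨G', ⟨g2, G, g1, g4, g3, C, hC, fun x hx => ?_⟩, g3⟩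
  have := g3 x
  rwa [g5 x hx] at this

end cdiff

section rel

variable {E F : Type} [NormedAddCommGroup E] [NormedSpace ℝ E] [NormedAddCommGroup F]
  [NormedSpace ℝ F]

/-- `f` and `g` differ by a compactly supported diffeomorphism on `K` -/
def Amb (K : Set E) (f g : E → F) : Prop := ∃ G : F → F, CDiff G ∧ ∀ x ∈ K, G (f x) = g x

theorem Amb.trans {K : Set E} {f g h : E → F} (h1 : Amb K f g) (h2 : Amb K g h) : Amb K f h := by
  obtain ⟨G, hG, e1⟩ := h1
  obtain ⟨H, hH, e2⟩ := h2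
  exact ⟨_, hH.comp hG, fun x hx => by rw [e1 x hx, e2 x hx]⟩

theorem Amb.symm {K : Set E} {f g : E → F} (h1 : Amb K f g) : Amb K g f := by
  obtain ⟨G, hG, e1⟩ := h1
  obtain ⟨G', hG', e2⟩ := hG.inv
  exact ⟨G', hG', fun x hx => by rw [← e1 x hx, e2]⟩

theorem Amb.congr {K : Set E} {f g f' g' : E → F} (h1 : Amb K f g) (hf : ∀ x ∈ K, f x = f' x)
    (hg : ∀ x ∈ K, g x = g' x) : Amb K f' g' := by
  obtain ⟨G, hG, e1⟩ := h1
  exact ⟨G, hG, fun x hx => by rw [← hf x hx, e1 x hx, hg x hx]⟩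

theorem Emb.congr {K U : Set E} {N : E → E} {f g : E → F} (hR : Ret K U N) (h : Emb K U N f)
    (e : ∀ x ∈ K, f x = g x) : Emb K U N g := by
  refine ⟨h.smooth.congr fun x hx => (e _ (hR.maps x hx)).symm, ?_⟩
  obtain ⟨c, hc, h1⟩ := h.low
  refine ⟨c, hc, fun x hx y hy => ?_⟩
  rw [← e x hx, ← e y hy]
  exact h1 x hx y hy

end rel

section paths

variable {E F : Type} [NormedAddCommGroup E] [NormedSpace ℝ E] [FiniteDimensional ℝ E]
  [MeasurableSpace E] [BorelSpace E] {μ : Measure E} [μ.IsAddHaarMeasure]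
  [NormedAddCommGroup F] [NormedSpace ℝ F] [FiniteDimensional ℝ F]
  {K U V : Set E} {N : E → E} {t₁ C : ℝ}

theorem joint (hM : S_MOL) (hR : Ret K U N) (hp : Pi0 K U N t₁ C V) {η : E → ℝ} (h : Ker μ η)
    {Φ : E → F} (hs : ContDiffOn ℝ ∞ Φ U) :
    ContDiffOn ℝ ∞ (fun p : ℝ × E => moll μ η Φ p.1 p.2) (Ioo (-t₁) t₁ ×ˢ V) :=
  hM E F μ η h U V t₁ Φ hR.opn hp.opn hp.pos hp.inU hs

theorem sm_moll (hM : S_MOL) (hR : Ret K U N) (hp : Pi0 K U N t₁ C V) {η : E → ℝ} (h : Ker μ η)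
    {Φ : E → F} (hs : ContDiffOn ℝ ∞ Φ U) {t : ℝ} (ht : |t| < t₁) :
    ContDiffOn ℝ ∞ (fun x => moll μ η Φ t x) V := by
  have h1 := joint hM hR hp h hs
  have h2 : ContDiffOn ℝ ∞ (fun x : E => ((t, x) : ℝ × E)) V := by fun_prop
  refine h1.comp h2 fun x hx => ⟨?_, hx⟩
  rwa [abs_lt] at ht

theorem sm_moll_N (hM : S_MOL) (hR : Ret K U N) (hp : Pi0 K U N t₁ C V) {η : E → ℝ}
    (h : Ker μ η) {Φ : E → F} (hs : ContDiffOn ℝ ∞ Φ U) {t : ℝ} (ht : |t| < t₁) :
    ContDiffOn ℝ ∞ (fun x => moll μ η Φ t (N x)) U :=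
  (sm_moll hM hR hp h hs ht).comp hR.smooth fun x hx => hp.sub (hR.maps x hx)

/-- the path of the mollifications -/
theorem path_moll (hP : S_PATH) (hM : S_MOL) (hC : S_CTS) (hR : Ret K U N)
    (hp : Pi0 K U N t₁ C V) {η : E → ℝ} (h : Ker μ η) {φ : E → F}
    (hs : ContDiffOn ℝ ∞ (fun x => φ (N x)) U) {τ : ℝ} (h0 : 0 ≤ τ) (hτ : τ < t₁)
    (hE : ∀ t ∈ Icc 0 τ, Emb K U N (fun x => moll μ η (fun z => φ (N z)) t x)) :
    Amb K φ (fun x => moll μ η (fun z => φ (N z)) τ x) := by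
  have hJ : ∀ s ∈ Icc (0 : ℝ) 1, s * τ ∈ Icc 0 τ := fun s hs =>
    ⟨mul_nonneg hs.1 h0, mul_le_of_le_one_left h0 hs.2⟩
  have hJ2 : ∀ s ∈ Icc (0 : ℝ) 1, s * τ ∈ Ioo (-t₁) t₁ := fun s hs =>
    ⟨by have := (hJ s hs).1; have := hp.pos; linarith, (hJ s hs).2.trans_lt hτ⟩
  have key := hP E F K U N (fun s x => moll μ η (fun z => φ (N z)) (s * τ) x) hR
    (fun s hs' => hE _ (hJ s hs')) (fun s hs' δ hδ => ?_)
  · obtain ⟨G, hG, e⟩ := key
    refine ⟨G, hG, fun x hx => ?_⟩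
    have := e x hx
    simp only [zero_mul, one_mul] at this
    rw [moll_zero h, hR.fix x hx] at this
    exact this
  · obtain ⟨τ', hτ', h2⟩ := hC E F K V (Ioo (-t₁) t₁)
      (fun p : ℝ × E => moll μ η (fun z => φ (N z)) p.1 p.2) hR.cpt hp.opn hp.sub isOpen_Ioo
      (joint hM hR hp h hs) (s * τ) (hJ2 s hs') δ hδ
    refine ⟨τ' / (τ + 1), by positivity, fun s' hs'' hss => h2 _ (hJ2 s' hs'') ?_⟩
    rw [← sub_mul, abs_mul, abs_of_nonneg h0]
    have h3 : |s' - s| * (τ + 1) < τ' := by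
      rwa [lt_div_iff₀ (by positivity)] at hss
    have := abs_nonneg (s' - s)
    nlinarith

/-- straight paths -/
theorem path_line (hP : S_PATH) (hC : S_CTS) (hR : Ret K U N) (hV : IsOpen V) (hKV : K ⊆ V)
    {f g : E → F} (hf : ContDiffOn ℝ ∞ f V) (hg : ContDiffOn ℝ ∞ g V)
    (hE : ∀ u ∈ Icc (0 : ℝ) 1, ∃ c : ℝ, 0 < c ∧ ∀ x ∈ K, ∀ y ∈ K, c * ‖x - y‖ ≤
      ‖(f x - f y) + u • ((g x - g y) - (f x - f y))‖) :
    Amb K f g := by
  have key := hP E F K U N (fun u x => f x + u • (g x - f x)) hR ?_ ?_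
  · obtain ⟨G, hG, e⟩ := key
    refine ⟨G, hG, fun x hx => ?_⟩
    have := e x hx
    simpa using this
  · intro u hu
    refine ⟨?_, ?_⟩
    · have h1 : ContDiffOn ℝ ∞ (fun x => f x + u • (g x - f x)) V := by fun_prop
      exact h1.comp hR.smooth fun x hx => hKV (hR.maps x hx)
    · obtain ⟨c, hc, h1⟩ := hE u hu
      refine ⟨c, hc, fun x hx y hy => (h1 x hx y hy).trans (le_of_eq ?_)⟩
      congr 1
      simp only [smul_sub]
      abel
  · intro s hs δ hδ
    have hsm : ContDiffOn ℝ ∞ (fun p : ℝ × E => f p.2 + p.1 • (g p.2 - f p.2))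
        ((univ : Set ℝ) ×ˢ V) := by
      have h1 : ContDiffOn ℝ ∞ (fun p : ℝ × E => f p.2) ((univ : Set ℝ) ×ˢ V) :=
        hf.comp contDiff_snd.contDiffOn fun p hp => hp.2
      have h2 : ContDiffOn ℝ ∞ (fun p : ℝ × E => g p.2) ((univ : Set ℝ) ×ˢ V) :=
        hg.comp contDiff_snd.contDiffOn fun p hp => hp.2
      exact h1.add (contDiff_fst.contDiffOn.smul (h2.sub h1))
    obtain ⟨τ', hτ', h2⟩ := hC E F K V univ _ hR.cpt hV hKV isOpen_univ hsm s (mem_univ _) δ hδ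
    exact ⟨τ', hτ', fun s' _ hss => h2 s' (mem_univ _) hss⟩

/-- affine maps of the retraction -/
theorem moll_affine {η : E → ℝ} (hR : Ret K U N) (hp : Pi0 K U N t₁ C V) (h : Ker μ η)
    (T : E →L[ℝ] F) (b : F) {x : E} (hx : x ∈ V) {t : ℝ} (ht : |t| < t₁) :
    moll μ η (fun z => T (N z) + b) t x = T (moll μ η N t x) + b := by
  have ha := hp.mem hx ht
  have i2 := int_moll h hR.opn hR.smooth.continuousOn x t ha
  have i3 : Integrable (fun y => η y • T (N (x + t • y))) μ := by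
    have := T.integrable_comp i2
    simpa using this
  have i4 : Integrable (fun y => η y • b) μ := h.integrable.smul_const _
  have e2 : T (moll μ η N t x) = ∫ y, η y • T (N (x + t • y)) ∂μ := by
    unfold moll
    rw [← T.integral_comp_comm i2]
    simp
  have e3 : b = ∫ y, η y • b ∂μ := by rw [integral_smul_const, h.mass, one_smul]
  rw [e2]
  conv_rhs => rw [e3]
  rw [← integral_add i3 i4]
  unfold moll
  refine integral_congr_ae (Eventually.of_forall fun y => ?_)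
  simp only [smul_add]

/-- injective affine maps of the mollified retraction -/
theorem emb_affine (hM : S_MOL) (hR : Ret K U N) (hp : Pi0 K U N t₁ C V) {η : E → ℝ}
    (h : Ker μ η) {l : ℝ} (hl : 0 < l) (T : E →L[ℝ] F) (hT : ∀ v, l * ‖v‖ ≤ ‖T v‖) (b : F)
    {t : ℝ} (ht : |t| < t₁) : Emb K U N (fun x => moll μ η (fun z => T (N z) + b) t x) := by
  have hs : ContDiffOn ℝ ∞ (fun z => T (N z) + b) U :=
    (T.contDiff.comp_contDiffOn hR.smooth).add contDiffOn_const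
  refine ⟨sm_moll_N hM hR hp h hs ht, l / 2, by positivity, fun x hx y hy => ?_⟩
  rw [moll_affine hR hp h T b (hp.sub hx) ht, moll_affine hR hp h T b (hp.sub hy) ht]
  have e : T (moll μ η N t x) + b - (T (moll μ η N t y) + b) =
      T (moll μ η N t x - moll μ η N t y) := by
    rw [map_sub]
    abel
  rw [e]
  have h1 := hT (moll μ η N t x - moll μ η N t y)
  have h2 := moll_N_low hR hp h hx hy ht
  nlinarith

/-- the embedding property of the mollifications of almost affine maps -/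
theorem emb_moll (hL : S_LOW) (hM : S_MOL) (hR : Ret K U N) (hp : Pi0 K U N t₁ C V)
    {η : E → ℝ} (h : Ker μ η) {Λ ε r₀ : ℝ} (hΛ2 : 2 ≤ Λ)
    (hΛ : ∀ v : E, ∫ y, |η y - η (y + v)| ∂μ ≤ Λ * ‖v‖ ∧ ∫ y, |η y - η (y + v)| ∂μ ≤ 2)
    (hε0 : 0 ≤ ε) (hε : ε * ((C + 1) * (Λ + 2)) ≤ 1 / 4)
    {φ : E → F} (hφ : ContDiffOn ℝ ∞ (fun x => φ (N x)) U) (hA : Alm K ε r₀ φ)
    {t : ℝ} (ht : 0 < t) (ht1 : t < t₁) (ht2 : (C + 1) * t ≤ r₀)
    (hfar : ∀ x ∈ K, ∀ y ∈ K, r₀ < C * t + ‖x - y‖ →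
      moll μ η (fun z => φ (N z)) t x ≠ moll μ η (fun z => φ (N z)) t y) :
    Emb K U N (fun x => moll μ η (fun z => φ (N z)) t x) := by
  have hC := hp.one
  refine hL E F K U N _ hR (sm_moll_N hM hR hp h hφ (by rwa [abs_of_pos ht])) ?_ ?_
  · intro x hx y hy hxy
    by_contra hne
    have hd : 0 < ‖x - y‖ := norm_pos_iff.2 (sub_ne_zero.2 hne)
    rcases le_or_gt (C * t + ‖x - y‖) r₀ with h1 | h1
    · obtain ⟨l, T, b, hl, -, -, -, h2⟩ := low_core hR hp h hΛ2 hΛ hε0 hε hφ.continuousOn hA hx hy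
        ht ht1 (R := C * t + ‖x - y‖) le_rfl (by
          have a1 := le_max_left t ‖x - y‖
          have a2 := le_max_right t ‖x - y‖
          nlinarith) h1
      rw [hxy, sub_self, norm_zero] at h2
      have : 0 < l * ‖x - y‖ / 4 := by positivity
      linarith
    · exact hfar x hx y hy h1 hxy
  · intro x hx
    obtain ⟨l, T, b, hl, hT, hb⟩ := hA x hx ((C + 1) * t) (by positivity) ht2
    refine ⟨l / 4, by positivity, t, ht, fun y hy hyx => ?_⟩
    have h3 : ‖x - y‖ ≤ t := by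
      rw [norm_sub_rev]
      exact hyx.le
    have key := (cmp hR hp h hΛ hφ.continuousOn hx hy ht ht1 (R := (C + 1) * t) (by linarith) T b
      (β := ε * l * ((C + 1) * t)) (fun z hz hz2 => hb _ (hR.maps z hz) hz2)).1
    have main : ε * l * ((C + 1) * t) * (Λ * (‖x - y‖ / t)) ≤ l * ‖x - y‖ / 4 := by
      calc _ = (ε * ((C + 1) * Λ)) * (l * ‖x - y‖) := by field_simp
        _ ≤ (ε * ((C + 1) * (Λ + 2))) * (l * ‖x - y‖) := by
            gcongr
            linarith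
        _ ≤ 1 / 4 * (l * ‖x - y‖) := by gcongr
        _ = _ := by ring
    have h2 := moll_N_low hR hp h hx hy (t := t) (by rwa [abs_of_pos ht])
    have h3 := hT (moll μ η N t x - moll μ η N t y)
    have h4 := norm_sub_norm_le (T (moll μ η N t x - moll μ η N t y))
      (moll μ η (fun x => φ (N x)) t x - moll μ η (fun x => φ (N x)) t y)
    rw [norm_sub_rev (T (moll μ η N t x - moll μ η N t y))] at h4
    nlinarith

/-- (a) almost affine embeddings at all scales are ambient isotopic to affine maps -/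
theorem all_scales (hP : S_PATH) (hL : S_LOW) (hM : S_MOL) (hC : S_CTS) (hR : Ret K U N)
    (hp : Pi0 K U N t₁ C V) {η : E → ℝ} (h : Ker μ η) {Λ ε D : ℝ} (hΛ2 : 2 ≤ Λ)
    (hΛ : ∀ v : E, ∫ y, |η y - η (y + v)| ∂μ ≤ Λ * ‖v‖ ∧ ∫ y, |η y - η (y + v)| ∂μ ≤ 2)
    (hε0 : 0 ≤ ε) (hε : ε * ((C + 1) * (Λ + 2)) ≤ 1 / 4) (hD : 0 < D)
    (hKD : ∀ x ∈ K, ∀ y ∈ K, ‖x - y‖ ≤ D) (hε2 : ε * (8 * D * Λ) ≤ t₁) {x₀ : E} (hx₀ : x₀ ∈ K)
    {φ : E → F} (hφ : Emb K U N φ) (hA : Alm K ε D φ) :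
    ∃ (l : ℝ) (T : E →L[ℝ] F) (b : F), 0 < l ∧ (∀ v, l * ‖v‖ ≤ ‖T v‖) ∧
      Amb K (fun x => T x + b) φ := by
  have hC1 := hp.one
  -- all scales
  have hA' : ∀ r₀ : ℝ, Alm K ε r₀ φ := by
    intro r₀ x hx r hr hr0
    rcases le_or_gt r D with h1 | h1
    · exact hA x hx r hr h1
    · obtain ⟨l, T, b, hl, hT, hb⟩ := hA x hx D hD le_rfl
      refine ⟨l, T, b, hl, hT, fun y hy _ => (hb y hy (hKD y hy x hx)).trans ?_⟩
      gcongr
  have hE : ∀ t ∈ Icc 0 (t₁ / 2), Emb K U N (fun x => moll μ η (fun z => φ (N z)) t x) := by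
    intro t ht
    rcases ht.1.eq_or_lt with h0 | h0
    · refine hφ.congr hR fun x hx => ?_
      rw [← h0, moll_zero h, hR.fix x hx]
    · refine emb_moll hL hM hR hp h hΛ2 hΛ hε0 hε hφ.smooth (hA' ((C + 1) * t + C * t + D)) h0
        (by linarith [ht.2, hp.pos]) (by nlinarith) ?_
      intro x hx y hy hxy
      have := hKD x hx y hy
      nlinarith
  set τ : ℝ := t₁ / 2 with hτ
  have hτ0 : 0 < τ := by have := hp.pos; positivity
  have hττ : |τ| < t₁ := by rw [abs_of_pos hτ0]; linarith [hp.pos]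
  obtain ⟨l, T, b, hl, hT, hb⟩ := hA x₀ hx₀ D hD le_rfl
  refine ⟨l, T, b, hl, hT, ?_⟩
  have hsT : ContDiffOn ℝ ∞ (fun z => T (N z) + b) U :=
    (T.contDiff.comp_contDiffOn hR.smooth).add contDiffOn_const
  -- first path
  have p1 := path_moll hP hM hC hR hp h hφ.smooth hτ0.le (by linarith [hp.pos]) hE
  -- last path
  have p3 := path_moll hP hM hC hR hp h (φ := fun z => T z + b) hsT hτ0.le (by linarith [hp.pos])
    (fun t ht => emb_affine hM hR hp h hl T hT b (by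
      rw [abs_of_nonneg ht.1]
      linarith [ht.2, hp.pos]))
  -- the middle path
  have p2 : Amb K (fun x => moll μ η (fun z => T (N z) + b) τ x)
      (fun x => moll μ η (fun z => φ (N z)) τ x) := by
    refine path_line hP hC hR hp.opn hp.sub (sm_moll hM hR hp h hsT hττ)
      (sm_moll hM hR hp h hφ.smooth hττ) fun u hu => ⟨l / 4, by positivity, fun x hx y hy => ?_⟩
    have key := (cmp hR hp h hΛ hφ.smooth.continuousOn hx hy hτ0 (by linarith [hp.pos])
      (R := C * τ + ‖x - y‖) le_rfl T b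
      (β := ε * l * D) (fun z hz hz2 => hb _ (hR.maps z hz) (hKD _ (hR.maps z hz) _ hx₀))).1
    have main : ε * l * D * (Λ * (‖x - y‖ / τ)) ≤ l * ‖x - y‖ / 4 := by
      calc _ = (ε * (8 * D * Λ)) / (8 * τ) * (l * ‖x - y‖) := by field_simp
        _ ≤ t₁ / (8 * τ) * (l * ‖x - y‖) := by gcongr
        _ = _ := by
          rw [hτ]
          have := hp.pos
          field_simp
          ring
    rw [moll_affine hR hp h T b (hp.sub hx) hττ, moll_affine hR hp h T b (hp.sub hy) hττ]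
    have e : T (moll μ η N τ x) + b - (T (moll μ η N τ y) + b) =
        T (moll μ η N τ x - moll μ η N τ y) := by
      rw [map_sub]
      abel
    rw [e]
    set A := T (moll μ η N τ x - moll μ η N τ y)
    set B := moll μ η (fun z => φ (N z)) τ x - moll μ η (fun z => φ (N z)) τ y
    have h2 := moll_N_low hR hp h hx hy hττ
    have h3 := hT (moll μ η N τ x - moll μ η N τ y)
    have h4 := norm_sub_norm_le A (-(u • (B - A)))
    rw [sub_neg_eq_add, norm_neg, norm_smul, Real.norm_eq_abs, abs_of_nonneg hu.1] at h4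
    have h5 : u * ‖B - A‖ ≤ 1 * ‖B - A‖ := mul_le_mul_of_nonneg_right hu.2 (norm_nonneg _)
    nlinarith
  exact p3.trans (p2.trans p1.symm)

end paths

end Pool.Agent.L7h32.AA
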