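import Pool.Agent.L7h32.AA.Asm2

/-!
# Project AA: two almost affine embeddings which are C⁰-close to the same topological embedding
-/

set_option autoImplicit false
set_option linter.unusedSectionVars false

open Set Filter Topology Metric MeasureTheory
open scoped ContDiff

noncomputable section

namespace Pool.Agent.L7h32.AA

section paths

variable {E F : Type} [NormedAddCommGroup E] [NormedSpace ℝ E] [FiniteDimensional ℝ E]
  [MeasurableSpace E] [BorelSpace E] {μ : Measure E} [μ.IsAddHaarMeasure]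
  [NormedAddCommGroup F] [NormedSpace ℝ F] [FiniteDimensional ℝ F]
  {K U V : Set E} {N : E → E} {t₁ C : ℝ}

/-- lower bound for pairs, with a given affine map -/
theorem low_core_T (hR : Ret K U N) (hp : Pi0 K U N t₁ C V) {η : E → ℝ} (h : Ker μ η) {Λ ε : ℝ}
    (hΛ2 : 2 ≤ Λ)
    (hΛ : ∀ v : E, ∫ y, |η y - η (y + v)| ∂μ ≤ Λ * ‖v‖ ∧ ∫ y, |η y - η (y + v)| ∂μ ≤ 2)
    (hε0 : 0 ≤ ε) (hε : ε * ((C + 1) * (Λ + 2)) ≤ 1 / 4)
    {φ : E → F} (hφ : ContinuousOn (fun x => φ (N x)) U) {x x' : E}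
    (hx : x ∈ K) (hx' : x' ∈ K) {t R : ℝ} (ht : 0 < t) (ht1 : t < t₁)
    (hR2 : C * t + ‖x - x'‖ ≤ R) (hR3 : R ≤ (C + 1) * max t ‖x - x'‖)
    {l : ℝ} {T : E →L[ℝ] F} {b : F} (hl : 0 < l) (hT : ∀ v, l * ‖v‖ ≤ ‖T v‖)
    (hb : ∀ y ∈ K, ‖y - x‖ ≤ R → ‖φ y - (T y + b)‖ ≤ ε * l * R) :
      ‖(moll μ η (fun x => φ (N x)) t x - moll μ η (fun x => φ (N x)) t x') -
        T (moll μ η N t x - moll μ η N t x')‖ ≤ l * ‖x - x'‖ / 4 ∧
      l * ‖x - x'‖ / 4 ≤ ‖moll μ η (fun x => φ (N x)) t x - moll μ η (fun x => φ (N x)) t x'‖ := by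
  have hC := hp.one
  have hd : 0 ≤ ‖x - x'‖ := norm_nonneg _
  have hR0 : 0 < R := by nlinarith
  have key := cmp hR hp h hΛ hφ hx hx' ht ht1 hR2 T b (β := ε * l * R)
    (fun z hz hz2 => hb _ (hR.maps z hz) hz2)
  have main : ‖(moll μ η (fun x => φ (N x)) t x - moll μ η (fun x => φ (N x)) t x') -
        T (moll μ η N t x - moll μ η N t x')‖ ≤ l * ‖x - x'‖ / 4 := by
    rcases le_total ‖x - x'‖ t with h1 | h1
    · rw [max_eq_left h1] at hR3
      refine key.1.trans ?_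
      calc ε * l * R * (Λ * (‖x - x'‖ / t)) ≤ ε * l * ((C + 1) * t) * (Λ * (‖x - x'‖ / t)) := by
            gcongr
        _ = (ε * ((C + 1) * Λ)) * (l * ‖x - x'‖) := by
            field_simp
        _ ≤ (ε * ((C + 1) * (Λ + 2))) * (l * ‖x - x'‖) := by
            gcongr
            linarith
        _ ≤ 1 / 4 * (l * ‖x - x'‖) := by gcongr
        _ = _ := by ring
    · rw [max_eq_right h1] at hR3
      refine key.2.trans ?_
      calc ε * l * R * 2 ≤ ε * l * ((C + 1) * ‖x - x'‖) * 2 := by gcongr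
        _ = (ε * ((C + 1) * 2)) * (l * ‖x - x'‖) := by ring
        _ ≤ (ε * ((C + 1) * (Λ + 2))) * (l * ‖x - x'‖) := by
            gcongr
            linarith
        _ ≤ 1 / 4 * (l * ‖x - x'‖) := by gcongr
        _ = _ := by ring
  refine ⟨main, ?_⟩
  have h2 := moll_N_low hR hp h hx hx' (t := t) (by rwa [abs_of_pos ht])
  have h3 := hT (moll μ η N t x - moll μ η N t x')
  have h4 := norm_sub_norm_le (T (moll μ η N t x - moll μ η N t x'))
    (moll μ η (fun x => φ (N x)) t x - moll μ η (fun x => φ (N x)) t x')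
  rw [norm_sub_rev (T (moll μ η N t x - moll μ η N t x'))] at h4
  nlinarith

theorem AlmH.alm {K : Set E} {ε H r₀ : ℝ} {φ : E → F} (h : AlmH K ε H r₀ φ) : Alm K ε r₀ φ := by
  intro x hx r hr hr0
  obtain ⟨l, T, b, hl, hT, -, hb⟩ := h x hx r hr hr0
  exact ⟨l, T, b, hl, hT, hb⟩

theorem two_close (hP : S_PATH) (hL : S_LOW) (hM : S_MOL) (hCt : S_CTS) (hR : Ret K U N)
    (hp : Pi0 K U N t₁ C V) {η : E → ℝ} (h : Ker μ η) {Λ ε r₀ H D : ℝ} (hΛ2 : 2 ≤ Λ)
    (hΛ : ∀ v : E, ∫ y, |η y - η (y + v)| ∂μ ≤ Λ * ‖v‖ ∧ ∫ y, |η y - η (y + v)| ∂μ ≤ 2)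
    (hε0 : 0 ≤ ε) (hε : ε * ((C + 1) * (Λ + 2)) ≤ 1 / 4) (hr₀ : 0 < r₀) (hH : 0 ≤ H) (hD : 0 < D)
    (hKD : ∀ x ∈ K, ∀ y ∈ K, ‖x - y‖ ≤ D)
    (hpts : ∀ x ∈ K, ∀ r : ℝ, 0 < r → r ≤ r₀ → ∃ y ∈ K, r / 2 ≤ ‖y - x‖ ∧ ‖y - x‖ ≤ r)
    {f : E → F} (hf : ContinuousOn f K) (hinj : InjOn f K) :
    ∃ δ : ℝ, 0 < δ ∧ ∀ φ ψ : E → F, Emb K U N φ → Emb K U N ψ → AlmH K ε H r₀ φ →
      AlmH K ε H r₀ ψ → (∀ x ∈ K, ‖φ x - f x‖ ≤ δ) → (∀ x ∈ K, ‖ψ x - f x‖ ≤ δ) → Amb K φ ψ := by
  have hC1 := hp.one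
  have ht1 := hp.pos
  have hcpt : IsCompact (K ×ˢ K) := hR.cpt.prod hR.cpt
  have c1 : ContinuousOn (fun p : E × E => f p.1) (K ×ˢ K) :=
    hf.comp continuous_fst.continuousOn fun p hp => hp.1
  have c2 : ContinuousOn (fun p : E × E => f p.2) (K ×ˢ K) :=
    hf.comp continuous_snd.continuousOn fun p hp => hp.2
  have c3 : ContinuousOn (fun p : E × E => ‖f p.1 - f p.2‖) (K ×ˢ K) := (c1.sub c2).norm
  have c4 : Continuous (fun p : E × E => ‖p.1 - p.2‖) := by fun_prop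
  -- separation
  have hsep : ∀ r : ℝ, 0 < r → ∃ m : ℝ, 0 < m ∧ ∀ x ∈ K, ∀ y ∈ K,
      r ≤ ‖x - y‖ → m ≤ ‖f x - f y‖ := by
    intro r hr
    have k1 : IsCompact ((K ×ˢ K) ∩ {p : E × E | r ≤ ‖p.1 - p.2‖}) :=
      hcpt.inter_right (isClosed_le continuous_const c4)
    obtain ⟨m, hm, h2⟩ := exists_pos_low k1 (c3.mono inter_subset_left) (fun p hp => by
      refine norm_pos_iff.2 (sub_ne_zero.2 fun e => ?_)
      have e2 := hinj hp.1.1 hp.1.2 e
      have e3 : r ≤ ‖p.1 - p.2‖ := hp.2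
      rw [e2, sub_self, norm_zero] at e3
      linarith)
    exact ⟨m, hm, fun x hx y hy hxy => h2 (x, y) ⟨⟨hx, hy⟩, hxy⟩⟩
  obtain ⟨m, hm, hm2⟩ := hsep (r₀ / 2) (by positivity)
  -- equicontinuity
  obtain ⟨w, hw, hw2⟩ : ∃ w : ℝ, 0 < w ∧ ∀ x ∈ K, ∀ y ∈ K,
      ‖x - y‖ < w → ‖f x - f y‖ ≤ m / 8 := by
    have k1 : IsCompact ((K ×ˢ K) ∩ (fun p : E × E => ‖f p.1 - f p.2‖) ⁻¹' Ici (m / 8)) :=
      hcpt.of_isClosed_subset (c3.preimage_isClosed_of_isClosed hcpt.isClosed isClosed_Ici)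
        inter_subset_left
    obtain ⟨w, hw, h2⟩ := exists_pos_low k1 c4.continuousOn (fun p hp => by
      refine norm_pos_iff.2 (sub_ne_zero.2 fun e => ?_)
      have e3 : m / 8 ≤ ‖f p.1 - f p.2‖ := hp.2
      rw [e, sub_self, norm_zero] at e3
      linarith)
    refine ⟨w, hw, fun x hx y hy hxy => ?_⟩
    by_contra hcon
    exact absurd (h2 (x, y) ⟨⟨hx, hy⟩, (not_le.1 hcon).le⟩) (not_le.2 hxy)
  -- the scale
  obtain ⟨τ, hτ, hτ1, hτ2, hτ3⟩ : ∃ τ : ℝ, 0 < τ ∧ τ < t₁ ∧ (C + 1) * τ ≤ r₀ / 2 ∧ C * τ < w := by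
    refine ⟨min (t₁ / 2) (min (r₀ / 2 / (C + 1)) (w / (2 * C))), by positivity, ?_, ?_, ?_⟩
    · exact (min_le_left _ _).trans_lt (by linarith)
    · calc (C + 1) * min (t₁ / 2) (min (r₀ / 2 / (C + 1)) (w / (2 * C)))
          ≤ (C + 1) * (r₀ / 2 / (C + 1)) := by
            gcongr
            exact (min_le_right _ _).trans (min_le_left _ _)
        _ = r₀ / 2 := by field_simp
    · calc C * min (t₁ / 2) (min (r₀ / 2 / (C + 1)) (w / (2 * C))) ≤ C * (w / (2 * C)) := by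
            gcongr
            exact (min_le_right _ _).trans (min_le_right _ _)
        _ = w / 2 := by field_simp
        _ < w := by linarith
  obtain ⟨m2, hm20, hm22⟩ := hsep (C * τ / 2) (by positivity)
  have hΛ0 : 0 < Λ := by linarith
  set l0 : ℝ := m2 / (2 * (H + 1) * r₀) with hl0
  have hl00 : 0 < l0 := by positivity
  set c₁ : ℝ := min (l0 / 4) (m / (2 * D)) with hc₁
  have hc₁0 : 0 < c₁ := by positivity
  set δ : ℝ := min (m / 24) (min (m2 / 4) (c₁ * τ / (4 * Λ))) with hδ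
  have hδ0 : 0 < δ := by positivity
  have hδ1 : δ ≤ m / 24 := min_le_left _ _
  have hδ2 : δ ≤ m2 / 4 := (min_le_right _ _).trans (min_le_left _ _)
  have hδ3 : δ ≤ c₁ * τ / (4 * Λ) := (min_le_right _ _).trans (min_le_right _ _)
  have hε2 : 2 * ε ≤ 1 := by nlinarith [mul_nonneg hε0 (by nlinarith : 0 ≤ (C + 1) * (Λ + 2) - 8)]
  -- facts for one map
  have one : ∀ φ : E → F, Emb K U N φ → AlmH K ε H r₀ φ → (∀ x ∈ K, ‖φ x - f x‖ ≤ δ) →
      Amb K φ (fun x => moll μ η (fun z => φ (N z)) τ x) ∧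
      ∀ x ∈ K, ∀ y ∈ K, c₁ * ‖x - y‖ ≤
        ‖moll μ η (fun z => φ (N z)) τ x - moll μ η (fun z => φ (N z)) τ y‖ := by
    intro φ hE hA hφf
    have hcl : ∀ t : ℝ, 0 < t → t ≤ τ → ∀ x ∈ K,
        ‖moll μ η (fun z => φ (N z)) t x - φ x‖ ≤ m / 8 + 2 * δ := by
      intro t ht htτ x hx
      have htt : |t| < t₁ := by rw [abs_of_pos ht]; linarith
      refine moll_close h hR.opn hE.smooth.continuousOn x t (hp.mem (hp.sub hx) htt) _
        fun y hy => ?_
      have hz : ‖t • y‖ ≤ t := by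
        rw [norm_smul, Real.norm_eq_abs, abs_of_pos ht]
        nlinarith
      have hU := hp.mem (hp.sub hx) htt y hy
      have h3 := hp.near x hx (t • y) (by linarith)
      have h4 : C * ‖t • y‖ ≤ C * τ := by gcongr; linarith
      have h5 := hw2 _ (hR.maps _ hU) x hx (by linarith)
      have h6 := hφf _ (hR.maps _ hU)
      have h7 := hφf x hx
      have e : φ (N (x + t • y)) - φ x = (φ (N (x + t • y)) - f (N (x + t • y))) +
        (f (N (x + t • y)) - f x) - (φ x - f x) := by abel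
      rw [e]
      calc _ ≤ ‖(φ (N (x + t • y)) - f (N (x + t • y))) + (f (N (x + t • y)) - f x)‖ +
            ‖φ x - f x‖ := norm_sub_le _ _
        _ ≤ ‖φ (N (x + t • y)) - f (N (x + t • y))‖ + ‖f (N (x + t • y)) - f x‖ +
            ‖φ x - f x‖ := by gcongr; exact norm_add_le _ _
        _ ≤ _ := by linarith
    have hfar : ∀ t : ℝ, 0 < t → t ≤ τ → ∀ x ∈ K, ∀ y ∈ K, r₀ < C * t + ‖x - y‖ →
        m / 2 ≤ ‖moll μ η (fun z => φ (N z)) t x - moll μ η (fun z => φ (N z)) t y‖ := by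
      intro t ht htτ x hx y hy hxy
      have h3 : C * t ≤ r₀ / 2 := by nlinarith
      have h4 := hm2 x hx y hy (by linarith)
      have h5 := hcl t ht htτ x hx
      have h6 := hcl t ht htτ y hy
      have h7 := hφf x hx
      have h8 := hφf y hy
      have e : f x - f y = (moll μ η (fun z => φ (N z)) t x - moll μ η (fun z => φ (N z)) t y) -
        (moll μ η (fun z => φ (N z)) t x - φ x) + (moll μ η (fun z => φ (N z)) t y - φ y) -
        (φ x - f x) + (φ y - f y) := by abel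
      rw [e] at h4
      have h9 := norm_add_le ((moll μ η (fun z => φ (N z)) t x - moll μ η (fun z => φ (N z)) t y) -
        (moll μ η (fun z => φ (N z)) t x - φ x) + (moll μ η (fun z => φ (N z)) t y - φ y) -
        (φ x - f x)) (φ y - f y)
      have h10 := norm_sub_le ((moll μ η (fun z => φ (N z)) t x -
        moll μ η (fun z => φ (N z)) t y) - (moll μ η (fun z => φ (N z)) t x - φ x) +
        (moll μ η (fun z => φ (N z)) t y - φ y)) (φ x - f x)
      have h11 := norm_add_le ((moll μ η (fun z => φ (N z)) t x -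
        moll μ η (fun z => φ (N z)) t y) - (moll μ η (fun z => φ (N z)) t x - φ x))
        (moll μ η (fun z => φ (N z)) t y - φ y)
      have h12 := norm_sub_le (moll μ η (fun z => φ (N z)) t x -
        moll μ η (fun z => φ (N z)) t y) (moll μ η (fun z => φ (N z)) t x - φ x)
      linarith
    refine ⟨?_, ?_⟩
    · refine path_moll hP hM hCt hR hp h hE.smooth hτ.le hτ1 fun t ht => ?_
      rcases ht.1.eq_or_lt with h0 | h0
      · refine hE.congr hR fun x hx => ?_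
        rw [← h0, moll_zero h, hR.fix x hx]
      · refine emb_moll' hL hR hp h hΛ2 hΛ hε0 hε hE.smooth.continuousOn hA.alm h0
          (by linarith [ht.2]) (by nlinarith [ht.2]) fun x hx y hy hxy he => ?_
        have := hfar t h0 ht.2 x hx y hy hxy
        rw [he, sub_self, norm_zero] at this
        linarith
    · intro x hx y hy
      rcases le_or_gt (C * τ + ‖x - y‖) r₀ with h1 | h1
      · obtain ⟨l, T, b, hl, hT, hTH, hb⟩ := hA x hx (C * τ + ‖x - y‖) (by positivity) h1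
        have h2 := (low_core_T hR hp h hΛ2 hΛ hε0 hε hE.smooth.continuousOn hx hy hτ hτ1
          (R := C * τ + ‖x - y‖) le_rfl (by
            have a1 := le_max_left τ ‖x - y‖
            have a2 := le_max_right τ ‖x - y‖
            nlinarith) hl hT hb).2
        obtain ⟨z, hz, hz1, hz2⟩ := hpts x hx (C * τ + ‖x - y‖) (by positivity) h1
        have h3 : m2 ≤ ‖f z - f x‖ := hm22 z hz x hx (by
          have := norm_nonneg (x - y)
          linarith)
        have h4 : ‖T (z - x)‖ ≤ H * l * r₀ := (hTH _).trans (by gcongr; linarith)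
        have h5 := hb z hz hz2
        have h6 := hb x hx (by
          rw [sub_self, norm_zero]
          positivity)
        have h7 := hφf z hz
        have h8 := hφf x hx
        have e : f z - f x = T (z - x) + (φ z - (T z + b)) - (φ x - (T x + b)) -
            (φ z - f z) + (φ x - f x) := by
          rw [map_sub]
          abel
        rw [e] at h3
        have n1 := norm_add_le (T (z - x) + (φ z - (T z + b)) - (φ x - (T x + b)) -
            (φ z - f z)) (φ x - f x)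
        have n2 := norm_sub_le (T (z - x) + (φ z - (T z + b)) - (φ x - (T x + b))) (φ z - f z)
        have n3 := norm_sub_le (T (z - x) + (φ z - (T z + b))) (φ x - (T x + b))
        have n4 := norm_add_le (T (z - x)) (φ z - (T z + b))
        have h9 : ε * l * (C * τ + ‖x - y‖) ≤ ε * l * r₀ := by gcongr
        have h10 : 2 * (ε * l * r₀) ≤ l * r₀ := by
          calc 2 * (ε * l * r₀) = (2 * ε) * (l * r₀) := by ring
            _ ≤ 1 * (l * r₀) := by gcongr
            _ = _ := one_mul _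
        have h11 : m2 / 2 ≤ (H + 1) * l * r₀ := by linarith
        have h12 : l0 ≤ l := by
          rw [hl0, div_le_iff₀ (by positivity)]
          linarith
        calc c₁ * ‖x - y‖ ≤ (l0 / 4) * ‖x - y‖ := by
              gcongr
              exact min_le_left _ _
          _ ≤ (l / 4) * ‖x - y‖ := by gcongr
          _ = l * ‖x - y‖ / 4 := by ring
          _ ≤ _ := h2
      · refine le_trans ?_ (hfar τ hτ le_rfl x hx y hy h1)
        calc c₁ * ‖x - y‖ ≤ (m / (2 * D)) * D := by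
              gcongr
              · exact min_le_right _ _
              · exact hKD x hx y hy
          _ = m / 2 := by field_simp
  refine ⟨δ, hδ0, fun φ ψ hφ hψ hAφ hAψ hφf hψf => ?_⟩
  obtain ⟨a1, a2⟩ := one φ hφ hAφ hφf
  obtain ⟨b1, b2⟩ := one ψ hψ hAψ hψf
  refine a1.trans (Amb.trans ?_ b1.symm)
  have hττ : |τ| < t₁ := by rwa [abs_of_pos hτ]
  refine path_line hP hCt hR hp.opn hp.sub (sm_moll hM hR hp h hφ.smooth hττ)
    (sm_moll hM hR hp h hψ.smooth hττ) fun u hu => ⟨c₁ / 2, by positivity, fun x hx y hy => ?_⟩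
  have hW : ContinuousOn (fun z => ψ (N z) - φ (N z)) U :=
    hψ.smooth.continuousOn.sub hφ.smooth.continuousOn
  have e : ∀ x ∈ K, moll μ η (fun z => ψ (N z)) τ x - moll μ η (fun z => φ (N z)) τ x =
      moll μ η (fun z => ψ (N z) - φ (N z)) τ x := fun x hx =>
    moll_sub h hR.opn hψ.smooth.continuousOn hφ.smooth.continuousOn x τ (hp.mem (hp.sub hx) hττ)
  have hbb : ∀ x ∈ K, ∀ y : E, ‖y‖ ≤ 1 →
      ‖ψ (N (x + τ • y)) - φ (N (x + τ • y))‖ ≤ 2 * δ := fun x hx y hy => by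
    have hU := hR.maps _ (hp.mem (hp.sub hx) hττ y hy)
    have q1 := hφf _ hU
    have q2 := hψf _ hU
    have := norm_sub_le (ψ (N (x + τ • y)) - f (N (x + τ • y)))
      (φ (N (x + τ • y)) - f (N (x + τ • y)))
    rw [sub_sub_sub_cancel_right] at this
    linarith
  have key := (moll_diff h hΛ hR.opn hW x y (β := 2 * δ) hτ (hp.mem (hp.sub hx) hττ)
      (hp.mem (hp.sub hy) hττ) (hbb x hx) (hbb y hy)).1
  rw [← e x hx, ← e y hy] at key
  have h1 := a2 x hx y hy
  set A := moll μ η (fun z => φ (N z)) τ x - moll μ η (fun z => φ (N z)) τ y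
  set B := moll μ η (fun z => ψ (N z)) τ x - moll μ η (fun z => ψ (N z)) τ y
  have e2 : moll μ η (fun z => ψ (N z)) τ x - moll μ η (fun z => φ (N z)) τ x -
      (moll μ η (fun z => ψ (N z)) τ y - moll μ η (fun z => φ (N z)) τ y) = B - A := by
    simp only [A, B]
    abel
  rw [e2] at key
  have main : 2 * δ * (Λ * (‖x - y‖ / τ)) ≤ c₁ / 2 * ‖x - y‖ := by
    calc _ ≤ 2 * (c₁ * τ / (4 * Λ)) * (Λ * (‖x - y‖ / τ)) := by gcongr
      _ = c₁ / 2 * ‖x - y‖ := by
        field_simp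
        ring
  have h4 := norm_sub_norm_le A (-(u • (B - A)))
  rw [sub_neg_eq_add, norm_neg, norm_smul, Real.norm_eq_abs, abs_of_nonneg hu.1] at h4
  have h5 : u * ‖B - A‖ ≤ 1 * ‖B - A‖ := mul_le_mul_of_nonneg_right hu.2 (norm_nonneg _)
  linarith

end paths

end Pool.Agent.L7h32.AA
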