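import Pool.Agent.L7h32.AA.Stm

/-!
# Project AA: the main estimates
-/

set_option autoImplicit false
set_option linter.unusedSectionVars false

open Set Filter Topology Metric MeasureTheory
open scoped ContDiff

noncomputable section

namespace Pool.Agent.L7h32.AA

section basic

variable {E F : Type} [NormedAddCommGroup E] [NormedSpace ℝ E] [FiniteDimensional ℝ E]
  [MeasurableSpace E] [BorelSpace E] {μ : Measure E} [μ.IsAddHaarMeasure]
  [NormedAddCommGroup F] [NormedSpace ℝ F] [FiniteDimensional ℝ F]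

theorem Ker.cont {η : E → ℝ} (h : Ker μ η) : Continuous η := h.smooth.continuous

theorem Ker.cs {η : E → ℝ} (h : Ker μ η) : HasCompactSupport η := by
  refine HasCompactSupport.intro (isCompact_closedBall (0 : E) 1) fun y hy => h.supp y ?_
  simpa using hy

theorem Ker.integrable {η : E → ℝ} (h : Ker μ η) : Integrable η μ :=
  h.cont.integrable_of_hasCompactSupport h.cs

/-- the integrand of the mollification is continuous with compact support -/
theorem cont_moll {η : E → ℝ} (h : Ker μ η) {U : Set E} {Φ : E → F} (hU : IsOpen U)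
    (hΦ : ContinuousOn Φ U) (x : E) (t : ℝ) (hx : ∀ y : E, ‖y‖ ≤ 1 → x + t • y ∈ U) :
    Continuous (fun y => η y • Φ (x + t • y)) := by
  rw [continuous_iff_continuousAt]
  intro y
  rcases le_or_gt ‖y‖ 1 with hy | hy
  · have h1 : ContinuousAt Φ (x + t • y) := hΦ.continuousAt (hU.mem_nhds (hx y hy))
    have h2 : ContinuousAt (fun y : E => x + t • y) y := by fun_prop
    have h3 : ContinuousAt (fun y : E => Φ (x + t • y)) y :=
      ContinuousAt.comp (f := fun y : E => x + t • y) (g := Φ) h1 h2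
    exact h.cont.continuousAt.smul h3
  · have h1 : (fun y => η y • Φ (x + t • y)) =ᶠ[𝓝 y] fun _ => 0 := by
      have : ∀ᶠ z : E in 𝓝 y, 1 < ‖z‖ := continuous_norm.continuousAt.eventually (lt_mem_nhds hy)
      filter_upwards [this] with z hz
      rw [h.supp z hz, zero_smul]
    exact (continuousAt_const.congr h1.symm)

theorem cs_moll {η : E → ℝ} (h : Ker μ η) {Φ : E → F} (x : E) (t : ℝ) :
    HasCompactSupport (fun y => η y • Φ (x + t • y)) := h.cs.smul_right

theorem int_moll {η : E → ℝ} (h : Ker μ η) {U : Set E} {Φ : E → F} (hU : IsOpen U)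
    (hΦ : ContinuousOn Φ U) (x : E) (t : ℝ) (hx : ∀ y : E, ‖y‖ ≤ 1 → x + t • y ∈ U) :
    Integrable (fun y => η y • Φ (x + t • y)) μ :=
  (cont_moll h hU hΦ x t hx).integrable_of_hasCompactSupport (cs_moll h x t)

/-- change of variables -/
theorem moll_shift {η : E → ℝ} {Φ : E → F} (x x' : E) {t : ℝ} (ht : t ≠ 0) :
    moll μ η Φ t x' = ∫ y, η (y + t⁻¹ • (x - x')) • Φ (x + t • y) ∂μ := by
  unfold moll
  rw [← integral_add_right_eq_self (μ := μ) (fun y => η y • Φ (x' + t • y)) (t⁻¹ • (x - x'))]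
  refine integral_congr_ae (Eventually.of_forall fun y => ?_)
  have : x' + t • (y + t⁻¹ • (x - x')) = x + t • y := by
    rw [smul_add, smul_smul, mul_inv_cancel₀ ht, one_smul]
    abel
  simp only [this]

theorem int_shift {η : E → ℝ} (h : Ker μ η) {U : Set E} {Φ : E → F} (hU : IsOpen U)
    (hΦ : ContinuousOn Φ U) (x x' : E) {t : ℝ} (ht : t ≠ 0)
    (hx : ∀ y : E, ‖y‖ ≤ 1 → x' + t • y ∈ U) :
    Integrable (fun y => η (y + t⁻¹ • (x - x')) • Φ (x + t • y)) μ := by
  have h1 := (int_moll h hU hΦ x' t hx).comp_add_right (t⁻¹ • (x - x'))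
  refine h1.congr (Eventually.of_forall fun y => ?_)
  have : x' + t • (y + t⁻¹ • (x - x')) = x + t • y := by
    rw [smul_add, smul_smul, mul_inv_cancel₀ ht, one_smul]
    abel
  simp only [this]

/-- the kernel constant -/
theorem exists_lam {η : E → ℝ} (h : Ker μ η) : ∃ Λ : ℝ, 2 ≤ Λ ∧ ∀ v : E,
    ∫ y, |η y - η (y + v)| ∂μ ≤ Λ * ‖v‖ ∧ ∫ y, |η y - η (y + v)| ∂μ ≤ 2 := by
  obtain ⟨L0, hL0⟩ : ∃ L0 : NNReal, LipschitzWith L0 η := by
    obtain ⟨C, hC⟩ := (h.smooth.of_le (by simp : (1 : WithTop ℕ∞) ≤ ∞)).lipschitzWith_of_hasCompactSupport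
      h.cs (by simp)
    exact ⟨C, hC⟩
  have hint : ∀ v : E, Integrable (fun y => η y - η (y + v)) μ := fun v =>
    h.integrable.sub (h.integrable.comp_add_right v)
  have h2 : ∀ v : E, ∫ y, |η y - η (y + v)| ∂μ ≤ 2 := by
    intro v
    have e1 : ∫ y, |η y - η (y + v)| ∂μ ≤ ∫ y, (η y + η (y + v)) ∂μ := by
      refine integral_mono (hint v).abs (h.integrable.add (h.integrable.comp_add_right v)) ?_
      intro y
      have a := h.nonneg y
      have b := h.nonneg (y + v)
      simp only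
      rw [abs_le]
      constructor <;> linarith
    rw [integral_add h.integrable (h.integrable.comp_add_right v),
      integral_add_right_eq_self (μ := μ) η v, h.mass] at e1
    linarith
  set m : ℝ := μ.real (closedBall (0 : E) 2)
  refine ⟨max 2 (L0 * m), le_max_left _ _, fun v => ⟨?_, h2 v⟩⟩
  rcases le_or_gt ‖v‖ 1 with hv | hv
  · have e1 : ∫ y, |η y - η (y + v)| ∂μ ≤ ∫ y, (closedBall (0 : E) 2).indicator
        (fun _ => (L0 : ℝ) * ‖v‖) y ∂μ := by
      refine integral_mono (hint v).abs ?_ ?_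
      · exact (integrable_indicator_iff measurableSet_closedBall).2
          (integrableOn_const ((isCompact_closedBall (0 : E) 2).measure_lt_top.ne)
            enorm_ne_top)
      · intro y
        by_cases hy : y ∈ closedBall (0 : E) 2
        · simp only [indicator_of_mem hy]
          have := hL0.dist_le_mul y (y + v)
          rw [Real.dist_eq, dist_eq_norm] at this
          simpa using this
        · simp only [indicator_of_notMem hy]
          have h3 : 2 < ‖y‖ := by simpa using hy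
          have h4 : 1 < ‖y + v‖ := by
            have := norm_sub_norm_le y (-v)
            rw [sub_neg_eq_add, norm_neg] at this
            linarith
          rw [h.supp y (by linarith), h.supp _ h4]
          simp
    rw [integral_indicator measurableSet_closedBall, setIntegral_const, smul_eq_mul] at e1
    calc _ ≤ _ := e1
      _ = (L0 * m) * ‖v‖ := by
        simp only [m]
        ring
      _ ≤ _ := mul_le_mul_of_nonneg_right (le_max_right _ _) (norm_nonneg _)
  · calc _ ≤ 2 := h2 v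
      _ ≤ 2 * ‖v‖ := by linarith
      _ ≤ _ := mul_le_mul_of_nonneg_right (le_max_left _ _) (norm_nonneg _)

/-- differences of mollifications of small functions -/
theorem moll_diff {η : E → ℝ} (h : Ker μ η) {Λ : ℝ} (hΛ : ∀ v : E,
    ∫ y, |η y - η (y + v)| ∂μ ≤ Λ * ‖v‖ ∧ ∫ y, |η y - η (y + v)| ∂μ ≤ 2)
    {U : Set E} {W : E → F} (hU : IsOpen U) (hW : ContinuousOn W U) (x x' : E) {t β : ℝ}
    (ht : 0 < t) (hx : ∀ y : E, ‖y‖ ≤ 1 → x + t • y ∈ U) (hx' : ∀ y : E, ‖y‖ ≤ 1 → x' + t • y ∈ U)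
    (hβ : ∀ y : E, ‖y‖ ≤ 1 → ‖W (x + t • y)‖ ≤ β) (hβ' : ∀ y : E, ‖y‖ ≤ 1 → ‖W (x' + t • y)‖ ≤ β) :
    ‖moll μ η W t x - moll μ η W t x'‖ ≤ β * (Λ * (‖x - x'‖ / t)) ∧
    ‖moll μ η W t x - moll μ η W t x'‖ ≤ β * 2 := by
  have hβ0 : 0 ≤ β := (norm_nonneg _).trans (hβ 0 (by simp))
  set v : E := t⁻¹ • (x - x') with hv
  have e0 : ∀ y : E, x + t • y = x' + t • (y + v) := by
    intro y
    rw [hv, smul_add, smul_smul, mul_inv_cancel₀ ht.ne', one_smul]
    abel
  have key : ‖moll μ η W t x - moll μ η W t x'‖ ≤ β * ∫ y, |η y - η (y + v)| ∂μ := by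
    rw [moll_shift x x' ht.ne', moll, ← integral_sub (int_moll h hU hW x t hx)
      (int_shift h hU hW x x' ht.ne' hx'), ← integral_const_mul]
    refine norm_integral_le_of_norm_le ?_ (Eventually.of_forall fun y => ?_)
    · exact (h.integrable.sub (h.integrable.comp_add_right v)).abs.const_mul β
    · rw [← sub_smul, norm_smul, Real.norm_eq_abs, mul_comm]
      by_cases h1 : ‖y‖ ≤ 1
      · exact mul_le_mul_of_nonneg_right (hβ y h1) (abs_nonneg _)
      · by_cases h2 : ‖y + v‖ ≤ 1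
        · refine mul_le_mul_of_nonneg_right ?_ (abs_nonneg _)
          rw [e0]
          exact hβ' _ h2
        · rw [h.supp y (not_le.1 h1), h.supp (y + v) (not_le.1 h2)]
          simp
  have hvn : ‖v‖ = ‖x - x'‖ / t := by
    rw [hv, norm_smul, norm_inv, Real.norm_eq_abs, abs_of_pos ht]
    field_simp
  constructor
  · refine key.trans (mul_le_mul_of_nonneg_left ?_ hβ0)
    rw [← hvn]
    exact (hΛ v).1
  · exact key.trans (mul_le_mul_of_nonneg_left (hΛ v).2 hβ0)

theorem moll_zero {η : E → ℝ} (h : Ker μ η) (Φ : E → F) (x : E) : moll μ η Φ 0 x = Φ x := by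
  unfold moll
  simp only [zero_smul, add_zero]
  rw [integral_smul_const, h.mass, one_smul]


variable {K U V : Set E} {N : E → E} {t₁ C : ℝ}

/-- the output of S_PI -/
structure Pi0 (K U : Set E) (N : E → E) (t₁ C : ℝ) (V : Set E) : Prop where
  pos : 0 < t₁
  one : 1 ≤ C
  opn : IsOpen V
  sub : K ⊆ V
  inU : ∀ x ∈ V, ∀ z : E, ‖z‖ < t₁ → x + z ∈ U
  near : ∀ x ∈ K, ∀ z : E, ‖z‖ < t₁ → ‖N (x + z) - x‖ ≤ C * ‖z‖
  isom : ∀ x ∈ K, ∀ y ∈ K, ∀ z : E, ‖z‖ < t₁ →
        ‖(N (x + z) - N (y + z)) - (x - y)‖ ≤ ‖x - y‖ / 2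

theorem Pi0.mem (hp : Pi0 K U N t₁ C V) {x : E} (hx : x ∈ V) {t : ℝ} (ht : |t| < t₁) :
    ∀ y : E, ‖y‖ ≤ 1 → x + t • y ∈ U := fun y hy => hp.inU x hx _ (by
  rw [norm_smul, Real.norm_eq_abs]
  calc |t| * ‖y‖ ≤ |t| * 1 := mul_le_mul_of_nonneg_left hy (abs_nonneg _)
    _ < t₁ := by linarith)

/-- the mollified retraction is almost isometric -/
theorem moll_N (hR : Ret K U N) (hp : Pi0 K U N t₁ C V) {η : E → ℝ} (h : Ker μ η) {x x' : E}
    (hx : x ∈ K) (hx' : x' ∈ K) {t : ℝ} (ht : |t| < t₁) :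
    ‖(moll μ η N t x - moll μ η N t x') - (x - x')‖ ≤ ‖x - x'‖ / 2 := by
  have hN : ContinuousOn N U := hR.smooth.continuousOn
  have i1 := int_moll h hR.opn hN x t (hp.mem (hp.sub hx) ht)
  have i2 := int_moll h hR.opn hN x' t (hp.mem (hp.sub hx') ht)
  have e1 : (moll μ η N t x - moll μ η N t x') - (x - x') =
      ∫ y, η y • ((N (x + t • y) - N (x' + t • y)) - (x - x')) ∂μ := by
    have : (x - x') = ∫ y, η y • (x - x') ∂μ := by
      rw [integral_smul_const, h.mass, one_smul]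
    have i3 : Integrable (fun y => η y • N (x + t • y) - η y • N (x' + t • y)) μ := i1.sub i2
    have i4 : Integrable (fun y => η y • (x - x')) μ := h.integrable.smul_const _
    unfold moll
    rw [← integral_sub i1 i2]
    conv_lhs => rw [this]
    rw [← integral_sub i3 i4]
    refine integral_congr_ae (Eventually.of_forall fun y => ?_)
    simp only [smul_sub]
  rw [e1]
  have e2 : ‖x - x'‖ / 2 = ∫ y, η y * (‖x - x'‖ / 2) ∂μ := by
    rw [integral_mul_const, h.mass, one_mul]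
  rw [e2]
  refine norm_integral_le_of_norm_le (h.integrable.mul_const _) (Eventually.of_forall fun y => ?_)
  rw [norm_smul, Real.norm_eq_abs, abs_of_nonneg (h.nonneg y)]
  rcases le_or_gt ‖y‖ 1 with hy | hy
  · refine mul_le_mul_of_nonneg_left (hp.isom x hx x' hx' _ ?_) (h.nonneg y)
    rw [norm_smul, Real.norm_eq_abs]
    calc |t| * ‖y‖ ≤ |t| * 1 := mul_le_mul_of_nonneg_left hy (abs_nonneg _)
      _ < t₁ := by linarith
  · rw [h.supp y hy]
    simp

theorem moll_N_low (hR : Ret K U N) (hp : Pi0 K U N t₁ C V) {η : E → ℝ} (h : Ker μ η) {x x' : E}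
    (hx : x ∈ K) (hx' : x' ∈ K) {t : ℝ} (ht : |t| < t₁) :
    ‖x - x'‖ / 2 ≤ ‖moll μ η N t x - moll μ η N t x'‖ := by
  have h1 := moll_N hR hp h hx hx' ht
  have h2 := norm_sub_norm_le (x - x') (moll μ η N t x - moll μ η N t x')
  rw [norm_sub_rev (x - x')] at h2
  linarith

/-- the comparison with an affine map -/
theorem cmp (hR : Ret K U N) (hp : Pi0 K U N t₁ C V) {η : E → ℝ} (h : Ker μ η) {Λ : ℝ}
    (hΛ : ∀ v : E, ∫ y, |η y - η (y + v)| ∂μ ≤ Λ * ‖v‖ ∧ ∫ y, |η y - η (y + v)| ∂μ ≤ 2)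
    {Φ : E → F} (hΦ : ContinuousOn Φ U) {x x' : E} (hx : x ∈ K) (hx' : x' ∈ K) {t β R : ℝ}
    (ht : 0 < t) (ht1 : t < t₁) (hR2 : C * t + ‖x - x'‖ ≤ R) (T : E →L[ℝ] F) (b : F)
    (hβ : ∀ z ∈ U, ‖N z - x‖ ≤ R → ‖Φ z - (T (N z) + b)‖ ≤ β) :
    ‖(moll μ η Φ t x - moll μ η Φ t x') - T (moll μ η N t x - moll μ η N t x')‖ ≤
      β * (Λ * (‖x - x'‖ / t)) ∧
    ‖(moll μ η Φ t x - moll μ η Φ t x') - T (moll μ η N t x - moll μ η N t x')‖ ≤ β * 2 := by
  have htt : |t| < t₁ := by rwa [abs_of_pos ht]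
  have hN : ContinuousOn N U := hR.smooth.continuousOn
  have mx := hp.mem (hp.sub hx) htt
  have mx' := hp.mem (hp.sub hx') htt
  set W : E → F := fun z => Φ z - (T (N z) + b) with hWdef
  have hW : ContinuousOn W U := hΦ.sub ((T.continuous.comp_continuousOn hN).add continuousOn_const)
  have e1 : ∀ a : E, (∀ y : E, ‖y‖ ≤ 1 → a + t • y ∈ U) →
      moll μ η W t a = moll μ η Φ t a - (T (moll μ η N t a) + b) := by
    intro a ha
    have i1 := int_moll h hR.opn hΦ a t ha
    have i2 := int_moll h hR.opn hN a t ha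
    have i3 : Integrable (fun y => η y • T (N (a + t • y))) μ := by
      have := T.integrable_comp i2
      simpa using this
    have e2 : T (moll μ η N t a) = ∫ y, η y • T (N (a + t • y)) ∂μ := by
      unfold moll
      rw [← T.integral_comp_comm i2]
      simp
    have e3 : b = ∫ y, η y • b ∂μ := by rw [integral_smul_const, h.mass, one_smul]
    unfold moll at e2 ⊢
    have i4 : Integrable (fun y => η y • b) μ := h.integrable.smul_const _
    have i5 : Integrable (fun y => η y • T (N (a + t • y)) + η y • b) μ := i3.add i4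
    rw [e2]
    conv_rhs => rw [e3]
    rw [← integral_add i3 i4, ← integral_sub i1 i5]
    refine integral_congr_ae (Eventually.of_forall fun y => ?_)
    simp only [hWdef, smul_sub, smul_add]
  have key := moll_diff h hΛ hR.opn hW x x' (β := β) ht mx mx' ?_ ?_
  · rw [e1 x mx, e1 x' mx'] at key
    have e4 : moll μ η Φ t x - (T (moll μ η N t x) + b) -
        (moll μ η Φ t x' - (T (moll μ η N t x') + b)) =
        (moll μ η Φ t x - moll μ η Φ t x') - T (moll μ η N t x - moll μ η N t x') := by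
      rw [map_sub]
      abel
    rwa [e4] at key
  · intro y hy
    refine hβ _ (mx y hy) ((hp.near x hx _ ?_).trans ?_)
    · rw [norm_smul, Real.norm_eq_abs, abs_of_pos ht]
      nlinarith
    · rw [norm_smul, Real.norm_eq_abs, abs_of_pos ht]
      have := hp.one
      have h1 : C * (t * ‖y‖) ≤ C * (t * 1) := by gcongr
      have := norm_nonneg (x - x')
      linarith
  · intro y hy
    refine hβ _ (mx' y hy) ?_
    have h1 := hp.near x' hx' (t • y) (by
      rw [norm_smul, Real.norm_eq_abs, abs_of_pos ht]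
      nlinarith)
    rw [norm_smul, Real.norm_eq_abs, abs_of_pos ht] at h1
    have h2 : C * (t * ‖y‖) ≤ C * (t * 1) := by
      have := hp.one
      gcongr
    calc ‖N (x' + t • y) - x‖ = ‖(N (x' + t • y) - x') + (x' - x)‖ := by congr 1; abel
      _ ≤ ‖N (x' + t • y) - x'‖ + ‖x' - x‖ := norm_add_le _ _
      _ ≤ R := by
        rw [norm_sub_rev x' x]
        linarith

/-- lower bound for pairs -/
theorem low_core (hR : Ret K U N) (hp : Pi0 K U N t₁ C V) {η : E → ℝ} (h : Ker μ η) {Λ ε r₀ : ℝ}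
    (hΛ2 : 2 ≤ Λ)
    (hΛ : ∀ v : E, ∫ y, |η y - η (y + v)| ∂μ ≤ Λ * ‖v‖ ∧ ∫ y, |η y - η (y + v)| ∂μ ≤ 2)
    (hε0 : 0 ≤ ε) (hε : ε * ((C + 1) * (Λ + 2)) ≤ 1 / 4)
    {φ : E → F} (hφ : ContinuousOn (fun x => φ (N x)) U) (hA : Alm K ε r₀ φ) {x x' : E}
    (hx : x ∈ K) (hx' : x' ∈ K) {t R : ℝ} (ht : 0 < t) (ht1 : t < t₁)
    (hR2 : C * t + ‖x - x'‖ ≤ R) (hR3 : R ≤ (C + 1) * max t ‖x - x'‖) (hR4 : R ≤ r₀) :
    ∃ (l : ℝ) (T : E →L[ℝ] F) (b : F), 0 < l ∧ (∀ v, l * ‖v‖ ≤ ‖T v‖) ∧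
      (∀ y ∈ K, ‖y - x‖ ≤ R → ‖φ y - (T y + b)‖ ≤ ε * l * R) ∧
      ‖(moll μ η (fun x => φ (N x)) t x - moll μ η (fun x => φ (N x)) t x') -
        T (moll μ η N t x - moll μ η N t x')‖ ≤ l * ‖x - x'‖ / 4 ∧
      l * ‖x - x'‖ / 4 ≤ ‖moll μ η (fun x => φ (N x)) t x - moll μ η (fun x => φ (N x)) t x'‖ := by
  have hC := hp.one
  have hd : 0 ≤ ‖x - x'‖ := norm_nonneg _
  have hR0 : 0 < R := by nlinarith
  obtain ⟨l, T, b, hl, hT, hb⟩ := hA x hx R hR0 hR4
  have key := cmp hR hp h hΛ hφ hx hx' ht ht1 hR2 T b (β := ε * l * R)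
    (fun z hz hz2 => hb _ (hR.maps z hz) hz2)
  have main : ‖(moll μ η (fun x => φ (N x)) t x - moll μ η (fun x => φ (N x)) t x') -
        T (moll μ η N t x - moll μ η N t x')‖ ≤ l * ‖x - x'‖ / 4 := by
    rcases le_total ‖x - x'‖ t with h1 | h1
    · rw [max_eq_left h1] at hR3
      refine key.1.trans ?_
      calc ε * l * R * (Λ * (‖x - x'‖ / t)) ≤ ε * l * ((C + 1) * t) * (Λ * (‖x - x'‖ / t)) := by
            gcongr
        _ = (ε * ((C + 1) * Λ)) * (l * ‖x - x'‖) := by
            field_simp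
        _ ≤ (ε * ((C + 1) * (Λ + 2))) * (l * ‖x - x'‖) := by
            gcongr
            linarith
        _ ≤ 1 / 4 * (l * ‖x - x'‖) := by gcongr
        _ = _ := by ring
    · rw [max_eq_right h1] at hR3
      refine key.2.trans ?_
      calc ε * l * R * 2 ≤ ε * l * ((C + 1) * ‖x - x'‖) * 2 := by gcongr
        _ = (ε * ((C + 1) * 2)) * (l * ‖x - x'‖) := by ring
        _ ≤ (ε * ((C + 1) * (Λ + 2))) * (l * ‖x - x'‖) := by
            gcongr
            linarith
        _ ≤ 1 / 4 * (l * ‖x - x'‖) := by gcongr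
        _ = _ := by ring
  refine ⟨l, T, b, hl, hT, hb, main, ?_⟩
  have h2 := moll_N_low hR hp h hx hx' (t := t) (by rwa [abs_of_pos ht])
  have h3 := hT (moll μ η N t x - moll μ η N t x')
  have h4 := norm_sub_norm_le (T (moll μ η N t x - moll μ η N t x'))
    (moll μ η (fun x => φ (N x)) t x - moll μ η (fun x => φ (N x)) t x')
  rw [norm_sub_rev (T (moll μ η N t x - moll μ η N t x'))] at h4
  nlinarith

end basic

end Pool.Agent.L7h32.AA
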