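import Pool.Agent.L7h32.AA.Est
import Pool.Agent.L7h77.RE.Ker

/-!
# Project AA: a kernel in `ℝ⁴` with small total variation
-/

set_option autoImplicit false
set_option linter.unusedSectionVars false

open Set Filter Topology Metric MeasureTheory
open scoped ContDiff

noncomputable section

namespace Pool.Agent.L7h32.AA

/-- the `L¹` modulus of continuity is at most the integral of the directional derivative -/
theorem l1_mod {n : ℕ} {η : EuclideanSpace ℝ (Fin n) → ℝ} (hη : ContDiff ℝ ∞ η)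
    (hcs : HasCompactSupport η) (v : EuclideanSpace ℝ (Fin n)) :
    ∫ y, |η y - η (y + v)| ≤ ∫ y, |fderiv ℝ η y v| := by
  have hd : Continuous (fun y => fderiv ℝ η y v) :=
    (hη.continuous_fderiv (by simp)).clm_apply continuous_const
  have hcs2 : HasCompactSupport (fun y => fderiv ℝ η y v) := by
    have := hcs.fderiv (𝕜 := ℝ)
    exact this.comp_left (g := fun L : EuclideanSpace ℝ (Fin n) →L[ℝ] ℝ => L v) (by simp)
  -- pointwise
  have h1 : ∀ y, |η y - η (y + v)| ≤ ∫ θ in (0 : ℝ)..1, |fderiv ℝ η (y + θ • v) v| := by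
    intro y
    have hderiv : ∀ θ ∈ uIcc (0 : ℝ) 1, HasDerivAt (fun θ : ℝ => η (y + θ • v))
        (fderiv ℝ η (y + θ • v) v) θ := by
      intro θ _
      have h2 : HasFDerivAt η (fderiv ℝ η (y + θ • v)) (y + θ • v) :=
        (hη.differentiable (by simp) _).hasFDerivAt
      have h3 : HasDerivAt (fun θ : ℝ => y + θ • v) v θ := by
        have := ((hasDerivAt_id θ).smul_const v).const_add y
        simpa using this
      exact h2.comp_hasDerivAt θ h3
    have hc : Continuous (fun θ : ℝ => fderiv ℝ η (y + θ • v) v) :=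
      hd.comp (by fun_prop : Continuous fun θ : ℝ => y + θ • v)
    have h4 := intervalIntegral.integral_eq_sub_of_hasDerivAt hderiv (hc.intervalIntegrable _ _)
    simp only [one_smul, zero_smul, add_zero] at h4
    rw [abs_sub_comm, ← h4]
    exact intervalIntegral.abs_integral_le_integral_abs zero_le_one
  -- Fubini
  have hprod : Integrable (Function.uncurry fun (y : EuclideanSpace ℝ (Fin n)) (θ : ℝ) =>
      |fderiv ℝ η (y + θ • v) v|) ((volume : Measure (EuclideanSpace ℝ (Fin n))).prod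
      (volume.restrict (Ioc (0 : ℝ) 1))) := by
    have hc : Continuous (Function.uncurry fun (y : EuclideanSpace ℝ (Fin n)) (θ : ℝ) =>
        |fderiv ℝ η (y + θ • v) v|) :=
      (hd.comp (by fun_prop : Continuous fun p : EuclideanSpace ℝ (Fin n) × ℝ =>
        p.1 + p.2 • v)).abs
    obtain ⟨R, hR⟩ := hcs2.isBounded.subset_closedBall (0 : EuclideanSpace ℝ (Fin n))
    have hz : ∀ y, R < ‖y‖ → fderiv ℝ η y v = 0 := by
      intro y hy
      by_contra h
      have := hR (subset_tsupport _ h)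
      rw [mem_closedBall_zero_iff] at this
      linarith
    have hK : IsCompact (closedBall (0 : EuclideanSpace ℝ (Fin n)) (R + ‖v‖) ×ˢ Icc (0 : ℝ) 1) :=
      (isCompact_closedBall _ _).prod isCompact_Icc
    have h5 : IntegrableOn (Function.uncurry fun (y : EuclideanSpace ℝ (Fin n)) (θ : ℝ) =>
      |fderiv ℝ η (y + θ • v) v|) (closedBall (0 : EuclideanSpace ℝ (Fin n)) (R + ‖v‖) ×ˢ
        Icc (0 : ℝ) 1) (volume : Measure (EuclideanSpace ℝ (Fin n) × ℝ)) :=
      hc.continuousOn.integrableOn_compact hK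
    have h6 : (volume : Measure (EuclideanSpace ℝ (Fin n))).prod
        (volume.restrict (Ioc (0 : ℝ) 1)) =
        (volume : Measure (EuclideanSpace ℝ (Fin n) × ℝ)).restrict (univ ×ˢ Ioc (0 : ℝ) 1) := by
      rw [Measure.volume_eq_prod, ← Measure.prod_restrict, Measure.restrict_univ]
    rw [h6]
    change IntegrableOn _ _ _
    refine IntegrableOn.of_forall_sdiff_eq_zero (s := closedBall (0 : EuclideanSpace ℝ (Fin n))
      (R + ‖v‖) ×ˢ Ioc (0 : ℝ) 1) (h5.mono_set (prod_mono subset_rfl Ioc_subset_Icc_self))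
      (MeasurableSet.univ.prod measurableSet_Ioc) ?_
    rintro ⟨y, θ⟩ ⟨⟨-, hθ⟩, hy⟩
    have hy' : R + ‖v‖ < ‖y‖ := by
      by_contra hcon
      exact hy ⟨mem_closedBall_zero_iff.2 (not_lt.1 hcon), hθ⟩
    have h7 : R < ‖y + θ • v‖ := by
      have h8 := norm_sub_norm_le y (-(θ • v))
      rw [sub_neg_eq_add, norm_neg, norm_smul, Real.norm_eq_abs, abs_of_pos hθ.1] at h8
      have h9 : θ * ‖v‖ ≤ 1 * ‖v‖ := mul_le_mul_of_nonneg_right hθ.2 (norm_nonneg _)
      linarith
    simp [Function.uncurry, hz _ h7]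
  have h7 := integral_integral_swap hprod
  have h8 : ∀ θ : ℝ, ∫ y, |fderiv ℝ η (y + θ • v) v| = ∫ y, |fderiv ℝ η y v| := fun θ =>
    integral_add_right_eq_self (fun y => |fderiv ℝ η y v|) (θ • v)
  simp only [h8] at h7
  rw [setIntegral_const] at h7
  simp only [Real.volume_real_Ioc, sub_zero, max_eq_left zero_le_one, one_smul] at h7
  rw [← h7]
  refine integral_mono_of_nonneg (Eventually.of_forall fun y => abs_nonneg _)
    hprod.integral_prod_left (Eventually.of_forall fun y => ?_)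
  have := h1 y
  rwa [intervalIntegral.integral_of_le zero_le_one] at this

theorem kx : ∃ η : EuclideanSpace ℝ (Fin 4) → ℝ, Ker (volume : Measure _) η ∧
    ∀ v, ∫ y, |η y - η (y + v)| ≤ 103 / 50 * ‖v‖ ∧ ∫ y, |η y - η (y + v)| ≤ 2 := by
  obtain ⟨k1, k2, k3, k4, k5, k6, k7, k8, k9, k10, k11, k12, k13⟩ :=
    Pool.Agent.L7h77.RE.t_KER 4 (1 / 20) (by norm_num) (by norm_num)
  set Z : ℝ := Pool.Agent.L7h86.RE.ZZ 4 (1 / 20) with hZ
  set p : EuclideanSpace ℝ (Fin 4) → ℝ := Pool.Agent.L7h86.RE.ph (1 / 20) with hp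
  set g : EuclideanSpace ℝ (Fin 4) → ℝ := Pool.Agent.L7h86.RE.gg (1 / 20) with hg
  have hker : Ker (volume : Measure (EuclideanSpace ℝ (Fin 4))) (fun y => Z⁻¹ * p y) := by
    refine ⟨contDiff_const.mul k1, fun y => mul_nonneg (inv_nonneg.2 k5.le) (k2 y).1,
      fun y hy => ?_, ?_⟩
    · have h1 : ¬ 0 < p y := fun h => by
        have := (k3 y).1 h
        linarith
      rw [le_antisymm (not_lt.1 h1) (k2 y).1, mul_zero]
    · rw [integral_const_mul]
      exact inv_mul_cancel₀ k5.ne'
  refine ⟨_, hker, fun v => ⟨?_, ?_⟩⟩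
  · refine (l1_mod hker.smooth hker.cs v).trans ?_
    rcases eq_or_ne v 0 with rfl | hv
    · simp
    have hv0 : 0 < ‖v‖ := norm_pos_iff.2 hv
    set ν : EuclideanSpace ℝ (Fin 4) := ‖v‖⁻¹ • v with hν
    have hν1 : ‖ν‖ = 1 := by
      rw [hν, norm_smul, norm_inv, norm_norm, inv_mul_cancel₀ hv0.ne']
    have hvν : v = ‖v‖ • ν := by
      rw [hν, smul_smul, mul_inv_cancel₀ hv0.ne', one_smul]
    have e1 : ∀ y, fderiv ℝ (fun y => Z⁻¹ * p y) y v = -(Z⁻¹ * ‖v‖ * (inner ℝ ν y * g y)) := by
      intro y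
      have hd : DifferentiableAt ℝ p y := (k1.differentiable (by simp)) y
      rw [fderiv_const_mul hd]
      have := k10 y ν
      rw [_root_.smul_apply]
      conv_lhs => rw [hvν]
      rw [map_smul, this, smul_eq_mul, smul_eq_mul]
      ring
    have igg : Integrable g volume := k6.integrable_of_hasCompactSupport k7
    have ig2 : Integrable (fun y => inner ℝ ν y ^ 2 * g y) volume := by
      refine Continuous.integrable_of_hasCompactSupport ?_ ?_
      · exact ((continuous_const.inner continuous_id).pow 2).mul k6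
      · exact k7.mul_left
    have h2 : ∀ y, |fderiv ℝ (fun y => Z⁻¹ * p y) y v| ≤
        Z⁻¹ * ‖v‖ * (inner ℝ ν y ^ 2 * g y + 1 / 4 * g y) := by
      intro y
      have hZ0 : 0 ≤ Z⁻¹ := inv_nonneg.2 k5.le
      rw [e1, abs_neg, abs_mul, abs_of_nonneg (by positivity : 0 ≤ Z⁻¹ * ‖v‖), abs_mul,
        abs_of_nonneg (k8 y)]
      refine mul_le_mul_of_nonneg_left ?_ (by positivity)
      rw [← add_mul]
      refine mul_le_mul_of_nonneg_right ?_ (k8 y)
      have := sq_nonneg (|inner ℝ ν y| - 1 / 2)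
      have h3 : |inner ℝ ν y| ^ 2 = inner ℝ ν y ^ 2 := sq_abs _
      nlinarith
    calc ∫ y, |fderiv ℝ (fun y => Z⁻¹ * p y) y v|
        ≤ ∫ y, Z⁻¹ * ‖v‖ * (inner ℝ ν y ^ 2 * g y + 1 / 4 * g y) := by
          refine integral_mono_of_nonneg (Eventually.of_forall fun y => abs_nonneg _)
            ((ig2.add (igg.const_mul _)).const_mul _) (Eventually.of_forall h2)
      _ = Z⁻¹ * ‖v‖ * (Z + 1 / 4 * ∫ y, g y) := by
          rw [integral_const_mul, integral_add ig2 (igg.const_mul _), k11 ν hν1,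
            integral_const_mul]
      _ ≤ Z⁻¹ * ‖v‖ * (Z + 1 / 4 * (106 / 25 * Z)) := by
          have hZ0 : 0 ≤ Z⁻¹ := inv_nonneg.2 k5.le
          have : ∫ y, g y ≤ 106 / 25 * Z := by
            have := k13
            norm_num at this
            linarith
          gcongr
      _ = 103 / 50 * ‖v‖ := by
          field_simp
          ring
  · obtain ⟨Λ, -, h1⟩ := exists_lam hker
    exact (h1 v).2

end Pool.Agent.L7h32.AA
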