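import Pool.Agent.L7h32.AA.Est

/-!
# Project AA: the radial retraction onto the unit sphere
-/

set_option autoImplicit false
set_option linter.unusedSectionVars false

open Set Filter Topology Metric MeasureTheory
open scoped ContDiff

noncomputable section

namespace Pool.Agent.L7h32.AA

theorem px_sphere : Pi0 (sphere (0 : EuclideanSpace ℝ (Fin 4)) 1) {0}ᶜ (fun x => ‖x‖⁻¹ • x)
    (1 / 6) 2 {x | 1 / 3 < ‖x‖} := by
  have hn : ∀ (x z : EuclideanSpace ℝ (Fin 4)), x ∈ sphere (0 : EuclideanSpace ℝ (Fin 4)) 1 →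
      ‖z‖ < 1 / 6 → |‖x + z‖ - 1| ≤ ‖z‖ := by
    intro x z hx hz
    have h1 : ‖x‖ = 1 := by simpa using hx
    have := abs_norm_sub_norm_le (x + z) x
    rwa [h1, add_sub_cancel_left] at this
  refine ⟨by norm_num, by norm_num, isOpen_lt continuous_const continuous_norm, ?_, ?_, ?_, ?_⟩
  · intro x hx
    have h1 : ‖x‖ = 1 := by simpa using hx
    simp only [mem_setOf_eq, h1]
    norm_num
  · intro x hx z hz
    have hx' : 1 / 3 < ‖x‖ := hx
    intro h
    have h2 : x = -z := eq_neg_of_add_eq_zero_left (by simpa using h)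
    rw [h2, norm_neg] at hx'
    linarith
  · intro x hx z hz
    have h1 : ‖x‖ = 1 := by simpa using hx
    have h2 := hn x z hx hz
    set a : ℝ := ‖x + z‖ with ha
    have ha0 : 0 < a := by
      have := (abs_le.1 h2).1
      linarith
    have e : a⁻¹ • (x + z) - x = (a⁻¹ - 1) • (x + z) + z := by module
    have h3 : ‖(a⁻¹ - 1) • (x + z)‖ = |a - 1| := by
      rw [norm_smul, Real.norm_eq_abs, ← ha]
      have : a - 1 = -((a⁻¹ - 1) * a) := by
        field_simp
        ring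
      rw [this, abs_neg, abs_mul, abs_of_pos ha0]
    calc ‖a⁻¹ • (x + z) - x‖ = ‖(a⁻¹ - 1) • (x + z) + z‖ := by rw [e]
      _ ≤ ‖(a⁻¹ - 1) • (x + z)‖ + ‖z‖ := norm_add_le _ _
      _ ≤ 2 * ‖z‖ := by
        rw [h3]
        linarith
  · intro x hx y hy z hz
    have hx1 : ‖x‖ = 1 := by simpa using hx
    have hy1 : ‖y‖ = 1 := by simpa using hy
    have h2 := hn x z hx hz
    have h3 := hn y z hy hz
    have hz0 := norm_nonneg z
    set a : ℝ := ‖x + z‖ with ha
    set b : ℝ := ‖y + z‖ with hb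
    have ha1 : 5 / 6 ≤ a := by
      have := (abs_le.1 h2).1
      linarith
    have hb1 : 5 / 6 ≤ b := by
      have := (abs_le.1 h3).1
      linarith
    have ha0 : 0 < a := by linarith
    have hb0 : 0 < b := by linarith
    have hd := norm_nonneg (x - y)
    have e : a⁻¹ • (x + z) - b⁻¹ • (y + z) - (x - y) =
        (a⁻¹ - 1) • (x - y) + (a⁻¹ - b⁻¹) • (y + z) := by module
    -- a² - b² = 2 ⟨x - y, z⟩
    have h4 : a ^ 2 - b ^ 2 = 2 * inner ℝ (x - y) z := by
      rw [ha, hb, norm_add_sq_real, norm_add_sq_real, hx1, hy1, inner_sub_left]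
      ring
    have h5 : |a - b| ≤ ‖x - y‖ / 5 := by
      have h6 : |a - b| * (a + b) ≤ 2 * (‖x - y‖ * ‖z‖) := by
        have h7 : |a - b| * (a + b) = |a ^ 2 - b ^ 2| := by
          rw [show a ^ 2 - b ^ 2 = (a - b) * (a + b) by ring, abs_mul, abs_of_pos (by linarith :
            0 < a + b)]
        rw [h7, h4, abs_mul, abs_two]
        exact mul_le_mul_of_nonneg_left (abs_real_inner_le_norm _ _) (by norm_num)
      have h8 : |a - b| * (5 / 3) ≤ |a - b| * (a + b) :=
        mul_le_mul_of_nonneg_left (by linarith) (abs_nonneg _)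
      have h9 : ‖x - y‖ * ‖z‖ ≤ ‖x - y‖ * (1 / 6) := mul_le_mul_of_nonneg_left hz.le hd
      linarith
    have h6 : ‖(a⁻¹ - 1) • (x - y)‖ ≤ ‖x - y‖ / 5 := by
      rw [norm_smul, Real.norm_eq_abs]
      have : |a⁻¹ - 1| ≤ 1 / 5 := by
        have e2 : a⁻¹ - 1 = -((a - 1) / a) := by
          field_simp
          ring
        rw [e2, abs_neg, abs_div, abs_of_pos ha0, div_le_iff₀ ha0]
        linarith
      calc _ ≤ 1 / 5 * ‖x - y‖ := by gcongr
        _ = _ := by ring
    have h7 : ‖(a⁻¹ - b⁻¹) • (y + z)‖ ≤ 6 / 25 * ‖x - y‖ := by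
      rw [norm_smul, Real.norm_eq_abs, ← hb]
      have e2 : a⁻¹ - b⁻¹ = -((a - b) / (a * b)) := by
        field_simp
        ring
      have e3 : |a⁻¹ - b⁻¹| * b = |a - b| / a := by
        rw [e2, abs_neg, abs_div, abs_of_pos (by positivity : 0 < a * b)]
        field_simp
      rw [e3, div_le_iff₀ ha0]
      nlinarith
    calc ‖a⁻¹ • (x + z) - b⁻¹ • (y + z) - (x - y)‖
        = ‖(a⁻¹ - 1) • (x - y) + (a⁻¹ - b⁻¹) • (y + z)‖ := by rw [e]
      _ ≤ ‖(a⁻¹ - 1) • (x - y)‖ + ‖(a⁻¹ - b⁻¹) • (y + z)‖ := norm_add_le _ _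
      _ ≤ ‖x - y‖ / 2 := by linarith

end Pool.Agent.L7h32.AA
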