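import Pool.Agent.L7h32.AA.Asm3
import Pool.Agent.L7h26.AA.Path
import Pool.Agent.L7h73.AA.Sph
import Pool.Agent.L7h73.AA.Cts
import Pool.Agent.L7h34.AA.Svd
import Pool.Agent.L7h34.AA.Mol
import Pool.Agent.L7h32.AA.Kx
import Pool.Agent.L7h32.AA.Px

/-!
# Project AA: the theorem for the 3-sphere
-/

set_option autoImplicit false
set_option linter.unusedSectionVars false

open Set Filter Topology Metric MeasureTheory
open scoped ContDiff Manifold

noncomputable section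

namespace Pool.Agent.L7h32.AA

theorem pPATH : S_PATH :=
  Pool.Agent.L7h26.AA.s_PATH (Pool.Agent.L7h26.AA.s_STEP Pool.Agent.L7h26.AA.s_EXT)

/-- `ℝ⁴` -/
abbrev R4 : Type := EuclideanSpace ℝ (Fin 4)

/-- the unit sphere of `ℝ⁴` -/
abbrev S3 : Type := sphere (0 : EuclideanSpace ℝ (Fin (3 + 1))) 1

/-- smooth embeddings of the 3-sphere -/
structure SmEmb (f : S3 → R4) : Prop where
  smooth : ContMDiff (𝓡 3) (𝓡 4) ∞ f
  injective : Function.Injective f
  immersion : ∀ x, Function.Injective (mfderiv (𝓡 3) (𝓡 4) f x)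

/-- almost affine at the scale `r` -/
def AlmA (r : ℝ) (f : S3 → R4) : Prop :=
  ∀ x : S3, ∃ (l : ℝ) (T : R4 →ᵃ[ℝ] R4), 0 < l ∧ (∀ v w, l * dist v w ≤ dist (T v) (T w)) ∧
    ∀ y : S3, dist y x ≤ r → dist (f y) (T y) ≤ l * r / 200

/-- almost affine at the scale `r` with distortion at most `H` -/
def AlmAH (H r : ℝ) (f : S3 → R4) : Prop :=
  ∀ x : S3, ∃ (l : ℝ) (T : R4 →ᵃ[ℝ] R4), 0 < l ∧ (∀ v w, l * dist v w ≤ dist (T v) (T w)) ∧
    (∀ v w, dist (T v) (T w) ≤ H * l * dist v w) ∧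
    ∀ y : S3, dist y x ≤ r → dist (f y) (T y) ≤ l * r / 200

/-- extension of a map of the sphere -/
def ext (f : S3 → R4) : R4 → R4 := by
  classical
  exact fun x => if h : x ∈ sphere (0 : R4) 1 then f ⟨x, h⟩ else 0

theorem ext_apply (f : S3 → R4) (x : S3) : ext f x.1 = f x := by
  unfold ext
  rw [dif_pos x.2]

theorem ext_apply' (f : S3 → R4) {x : R4} (hx : x ∈ sphere (0 : R4) 1) : ext f x = f ⟨x, hx⟩ := by
  unfold ext
  rw [dif_pos hx]

/-- an affine map as a linear map plus a constant -/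
def lin (T : R4 →ᵃ[ℝ] R4) : R4 →L[ℝ] R4 := LinearMap.toContinuousLinearMap T.linear

theorem lin_apply (T : R4 →ᵃ[ℝ] R4) (v : R4) : T v = lin T v + T 0 := by
  have := T.linearMap_vsub v 0
  simp only [vsub_eq_sub, sub_zero] at this
  change T v = T.linear v + T 0
  rw [this, sub_add_cancel]

theorem lin_sub (T : R4 →ᵃ[ℝ] R4) (v w : R4) : lin T (v - w) = T v - T w := by
  rw [lin_apply T v, lin_apply T w, map_sub]
  abel

theorem alm_of {r₀ : ℝ} {f : S3 → R4} (h : ∀ r : ℝ, 0 < r → r ≤ r₀ → AlmA r f) :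
    Alm (sphere (0 : R4) 1) (1 / 200) r₀ (ext f) := by
  intro x hx r hr hr0
  obtain ⟨l, T, hl, hT, hb⟩ := h r hr hr0 ⟨x, hx⟩
  refine ⟨l, lin T, T 0, hl, fun v => ?_, fun y hy hyx => ?_⟩
  · have := hT v 0
    rw [dist_zero_right, dist_eq_norm, ← lin_sub, sub_zero] at this
    exact this
  · have := hb ⟨y, hy⟩ (by
      rw [Subtype.dist_eq, dist_eq_norm]
      exact hyx)
    rw [ext_apply' f hy, ← lin_apply, ← dist_eq_norm]
    refine this.trans (le_of_eq ?_)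
    ring

theorem almH_of {r₀ H : ℝ} {f : S3 → R4} (h : ∀ r : ℝ, 0 < r → r ≤ r₀ → AlmAH H r f) :
    AlmH (sphere (0 : R4) 1) (1 / 200) H r₀ (ext f) := by
  intro x hx r hr hr0
  obtain ⟨l, T, hl, hT, hTH, hb⟩ := h r hr hr0 ⟨x, hx⟩
  refine ⟨l, lin T, T 0, hl, fun v => ?_, fun v => ?_, fun y hy hyx => ?_⟩
  · have := hT v 0
    rw [dist_zero_right, dist_eq_norm, ← lin_sub, sub_zero] at this
    exact this
  · have := hTH v 0
    rw [dist_zero_right, dist_eq_norm, ← lin_sub, sub_zero] at this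
    exact this
  · have := hb ⟨y, hy⟩ (by
      rw [Subtype.dist_eq, dist_eq_norm]
      exact hyx)
    rw [ext_apply' f hy, ← lin_apply, ← dist_eq_norm]
    refine this.trans (le_of_eq ?_)
    ring

theorem emb_of {f : S3 → R4} (h : SmEmb f) :
    Emb (sphere (0 : R4) 1) {0}ᶜ (fun x => ‖x‖⁻¹ • x) (ext f) :=
  (Pool.Agent.L7h73.AA.s_SPH f h.smooth h.injective h.immersion (ext f) (ext_apply f)).2

/-- a diffeomorphism from its two smooth maps -/
def mkDiff (G G' : R4 → R4) (h1 : ContDiff ℝ ∞ G) (h2 : ContDiff ℝ ∞ G') (h3 : ∀ x, G' (G x) = x)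
    (h4 : ∀ x, G (G' x) = x) : Diffeomorph (𝓡 4) (𝓡 4) R4 R4 ∞ where
  toEquiv := ⟨G, G', h3, h4⟩
  contMDiff_toFun := h1.contMDiff
  contMDiff_invFun := h2.contMDiff

section main

variable {η : R4 → ℝ} {V : Set R4}

theorem sphere_D : ∀ x ∈ sphere (0 : R4) 1, ∀ y ∈ sphere (0 : R4) 1, ‖x - y‖ ≤ 2 := by
  intro x hx y hy
  have h1 : ‖x‖ = 1 := by simpa using hx
  have h2 : ‖y‖ = 1 := by simpa using hy
  have := norm_sub_le x y
  linarith

theorem sphere_pts (x : R4) (hx : x ∈ sphere (0 : R4) 1) (r : ℝ) (hr : 0 < r) (hr2 : r ≤ 2) :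
    ∃ y ∈ sphere (0 : R4) 1, r / 2 ≤ ‖y - x‖ ∧ ‖y - x‖ ≤ r := by
  have h1 : ‖x‖ = 1 := by simpa using hx
  -- a unit vector orthogonal to x
  obtain ⟨v, hv, hxv⟩ : ∃ v : R4, ‖v‖ = 1 ∧ inner ℝ x v = 0 := by
    have hd : 1 < Module.finrank ℝ R4 := by simp
    have h0 : (ℝ ∙ x)ᗮ ≠ ⊥ := by
      intro h
      have h3 := Submodule.finrank_add_finrank_orthogonal (ℝ ∙ x)
      rw [h, finrank_bot, add_zero] at h3
      have h4 := finrank_span_le_card (R := ℝ) ({x} : Set R4)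
      simp at h4
      omega
    obtain ⟨w, hw, hw0⟩ := Submodule.exists_mem_ne_zero_of_ne_bot h0
    refine ⟨‖w‖⁻¹ • w, ?_, ?_⟩
    · rw [norm_smul, norm_inv, norm_norm, inv_mul_cancel₀ (norm_ne_zero_iff.2 hw0)]
    · rw [inner_smul_right, Submodule.mem_orthogonal_singleton_iff_inner_right.1 hw, mul_zero]
  set c : ℝ := 1 - r ^ 2 / 2 with hc
  have hc1 : -1 ≤ c := by rw [hc]; nlinarith
  have hc2 : c ≤ 1 := by rw [hc]; nlinarith [sq_nonneg r]
  set s : ℝ := Real.sqrt (1 - c ^ 2) with hs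
  have hs2 : s ^ 2 = 1 - c ^ 2 := Real.sq_sqrt (by nlinarith)
  have hvx : inner ℝ v x = (0 : ℝ) := by rw [real_inner_comm]; exact hxv
  have e1 : ‖c • x + s • v‖ ^ 2 = 1 := by
    rw [norm_add_sq_real, norm_smul, norm_smul, inner_smul_left, inner_smul_right, hxv, h1, hv]
    simp only [Real.norm_eq_abs, mul_one, mul_zero, sq_abs]
    linarith
  have e2 : ‖(c • x + s • v) - x‖ ^ 2 = r ^ 2 := by
    have : (c • x + s • v) - x = (c - 1) • x + s • v := by module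
    rw [this, norm_add_sq_real, norm_smul, norm_smul, inner_smul_left, inner_smul_right, hxv, h1, hv]
    simp only [Real.norm_eq_abs, mul_one, mul_zero, sq_abs]
    rw [hs2, hc]
    ring
  have e3 : ‖(c • x + s • v) - x‖ = r := by
    rwa [sq_eq_sq₀ (norm_nonneg _) hr.le] at e2
  refine ⟨c • x + s • v, ?_, ?_, ?_⟩
  · rw [mem_sphere_zero_iff_norm]
    have := norm_nonneg (c • x + s • v)
    nlinarith
  · rw [e3]; linarith
  · rw [e3]

/-- the data used: the kernel and the retraction -/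
structure Data (η : R4 → ℝ) (V : Set R4) : Prop where
  ker : Ker (volume : Measure R4) η
  lam : ∀ v : R4, ∫ y, |η y - η (y + v)| ≤ 103 / 50 * ‖v‖ ∧ ∫ y, |η y - η (y + v)| ≤ 2
  pi0 : Pi0 (sphere (0 : R4) 1) {0}ᶜ (fun x => ‖x‖⁻¹ • x) (1 / 6) 2 V

theorem part_a (hd : Data η V) (f : S3 → R4) (hf : SmEmb f)
    (hA : ∀ r : ℝ, 0 < r → r ≤ 2 → AlmA r f) :
    ∃ (G : Diffeomorph (𝓡 4) (𝓡 4) R4 R4 ∞) (O : R4 ≃ₗᵢ[ℝ] R4) (C : Set R4), IsCompact C ∧
      (∀ x, x ∉ C → G x = O x) ∧ ∀ x : S3, G x.1 = f x := by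
  have hE := emb_of hf
  have hR := Pool.Agent.L7h73.AA.ret_sph
  obtain ⟨x₀, hx₀⟩ : (sphere (0 : R4) 1).Nonempty := (NormedSpace.sphere_nonempty).2 zero_le_one
  obtain ⟨l, T, b, hl, hT, hamb⟩ := all_scales (D := 2) (Λ := 103 / 50) (ε := 1 / 200) pPATH
    Pool.Agent.L7h34.AA.s_LOW Pool.Agent.L7h34.AA.s_MOL Pool.Agent.L7h73.AA.s_CTS hR hd.pi0 hd.ker
    (by norm_num) hd.lam (by norm_num) (by norm_num) (by norm_num) sphere_D (by norm_num) hx₀ hE
    (alm_of hA)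
  obtain ⟨O, hO⟩ := Pool.Agent.L7h34.AA.s_SVD 4 T l hl hT
  have h1 : Amb (sphere (0 : R4) 1) (fun x => T x + b) (fun x => O x) := by
    refine path_line pPATH Pool.Agent.L7h73.AA.s_CTS hR isOpen_univ (subset_univ _)
      (T.contDiff.add contDiff_const).contDiffOn O.contDiff.contDiffOn fun u hu => ?_
    obtain ⟨c, hc, h2⟩ := hO u hu
    refine ⟨c, hc, fun x _ y _ => (h2 (x - y)).trans (le_of_eq ?_)⟩
    congr 1
    rw [map_sub, map_sub]
    module
  obtain ⟨G, ⟨g1, G', g2, g3, g4, C, hC, g5⟩, hG⟩ := h1.symm.trans hamb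
  refine ⟨mkDiff (fun x => G (O x)) (fun x => O.symm (G' x)) (g1.comp O.contDiff)
    (O.symm.contDiff.comp g2) (fun x => by simp [g3]) (fun x => by simp [g4]), O, O.symm '' C,
    hC.image O.symm.continuous, fun x hx => ?_, fun x => ?_⟩
  · change G (O x) = O x
    refine g5 _ fun h => hx ⟨O x, h, by simp⟩
  · change G (O x.1) = f x
    rw [hG x.1 x.2, ext_apply]

theorem part_b (hd : Data η V) (f : unitInterval × S3 → R4) (hf : Continuous f)
    (hinj : ∀ t, Function.Injective fun x => f (t, x)) {r₀ : ℝ} (hr₀ : 0 < r₀)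
    (hA : ∀ r : ℝ, 0 < r → r ≤ r₀ → ∀ t, AlmA r fun x => f (t, x))
    (h0 : SmEmb fun x => f (0, x)) (h1 : SmEmb fun x => f (1, x)) :
    ∃ (G : Diffeomorph (𝓡 4) (𝓡 4) R4 R4 ∞) (C : Set R4), IsCompact C ∧
      (∀ x, x ∉ C → G x = x) ∧ ∀ x : S3, G (f (0, x)) = f (1, x) := by
  classical
  set F : ℝ → R4 → R4 := fun s => ext fun x => f (Set.projIcc 0 1 zero_le_one s, x) with hF
  have hR := Pool.Agent.L7h73.AA.ret_sph
  have hcont : ContinuousOn (fun p : ℝ × R4 => F p.1 p.2) (Icc 0 1 ×ˢ sphere (0 : R4) 1) := by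
    rw [continuousOn_iff_continuous_domRestrict]
    have e : (Icc (0 : ℝ) 1 ×ˢ sphere (0 : R4) 1).domRestrict (fun p : ℝ × R4 => F p.1 p.2) =
        fun p => f (⟨p.1.1, p.2.1⟩, ⟨p.1.2, p.2.2⟩) := by
      funext p
      change F p.1.1 p.1.2 = _
      rw [hF]
      simp only
      rw [ext_apply' _ p.2.2, Set.projIcc_of_mem zero_le_one p.2.1]
    rw [e]
    exact hf.comp (by fun_prop)
  have e0 : F 0 = ext fun x => f (0, x) := by
    rw [hF]
    simp only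
    rw [Set.projIcc_left]
    rfl
  have e1 : F 1 = ext fun x => f (1, x) := by
    rw [hF]
    simp only
    rw [Set.projIcc_right]
    rfl
  have key := path_top (Λ := 103 / 50) (ε := 1 / 200) (f := F) pPATH
    Pool.Agent.L7h34.AA.s_LOW Pool.Agent.L7h34.AA.s_MOL Pool.Agent.L7h73.AA.s_CTS hR hd.pi0 hd.ker
    (by norm_num) hd.lam (by norm_num) (by norm_num) hr₀ hcont ?_ ?_ ?_ ?_
  · obtain ⟨G, ⟨g1, G', g2, g3, g4, C, hC, g5⟩, hG⟩ := key
    refine ⟨mkDiff G G' g1 g2 g3 g4, C, hC, g5, fun x => ?_⟩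
    have := hG x.1 x.2
    rw [e0, e1, ext_apply, ext_apply] at this
    exact this
  · intro s hs x hx y hy hxy
    rw [hF] at hxy
    simp only [ext_apply' _ hx, ext_apply' _ hy] at hxy
    have := hinj _ hxy
    exact congrArg Subtype.val this
  · intro s hs
    exact alm_of fun r hr hr0 => hA r hr hr0 _
  · rw [e0]
    exact emb_of h0
  · rw [e1]
    exact emb_of h1

theorem part_c (hd : Data η V) (S : Set C(S3, R4)) (hS : IsCompact S)
    (hinj : ∀ f ∈ S, Function.Injective f) {r₀ H : ℝ} (hr₀ : 0 < r₀) (hH : 0 ≤ H) :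
    ∃ B : Set (S3 → R4), B.Finite ∧ (∀ g ∈ B, SmEmb g) ∧ ∀ f ∈ S, SmEmb f →
      (∀ r : ℝ, 0 < r → r ≤ r₀ → AlmAH H r f) →
      ∃ g ∈ B, ∃ (G : Diffeomorph (𝓡 4) (𝓡 4) R4 R4 ∞) (C : Set R4), IsCompact C ∧
      (∀ x, x ∉ C → G x = x) ∧ ∀ x : S3, G (g x) = f x := by
  classical
  have hR := Pool.Agent.L7h73.AA.ret_sph
  set r₁ : ℝ := min r₀ 2 with hr₁
  have hr₁0 : 0 < r₁ := by positivity
  have hloc : ∀ f ∈ S, ∃ δ : ℝ, 0 < δ ∧ ∀ φ ψ : R4 → R4,
      Emb (sphere (0 : R4) 1) {0}ᶜ (fun x => ‖x‖⁻¹ • x) φ →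
      Emb (sphere (0 : R4) 1) {0}ᶜ (fun x => ‖x‖⁻¹ • x) ψ →
      AlmH (sphere (0 : R4) 1) (1 / 200) H r₁ φ → AlmH (sphere (0 : R4) 1) (1 / 200) H r₁ ψ →
      (∀ x ∈ sphere (0 : R4) 1, ‖φ x - ext f x‖ ≤ δ) →
      (∀ x ∈ sphere (0 : R4) 1, ‖ψ x - ext f x‖ ≤ δ) → Amb (sphere (0 : R4) 1) φ ψ := by
    intro f hf
    refine two_close (Λ := 103 / 50) (ε := 1 / 200) (D := 2) pPATH
      Pool.Agent.L7h34.AA.s_LOW Pool.Agent.L7h34.AA.s_MOL Pool.Agent.L7h73.AA.s_CTS hR hd.pi0 hd.ker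
      (by norm_num) hd.lam (by norm_num) (by norm_num) hr₁0 hH (by norm_num) sphere_D
      (fun x hx r hr hr2 => sphere_pts x hx r hr (hr2.trans (min_le_right _ _))) ?_ ?_
    · rw [continuousOn_iff_continuous_domRestrict]
      have e : (sphere (0 : R4) 1).domRestrict (ext f) = f := by
        funext p
        exact ext_apply f p
      rw [e]
      exact f.continuous
    · intro x hx y hy hxy
      rw [ext_apply' _ hx, ext_apply' _ hy] at hxy
      exact congrArg Subtype.val (hinj f hf hxy)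
  choose! δ hδ hδ2 using hloc
  obtain ⟨t, ht, hcov⟩ := hS.elim_nhds_subcover (fun f => ball f (δ f))
    fun f hf => ball_mem_nhds f (hδ f hf)
  -- the class
  set Good : C(S3, R4) → (S3 → R4) → Prop := fun f g => SmEmb g ∧
    (∀ r : ℝ, 0 < r → r ≤ r₀ → AlmAH H r g) ∧ ∀ x, ‖g x - f x‖ ≤ δ f with hGood
  set rep : C(S3, R4) → (S3 → R4) := fun f =>
    if h : ∃ g, Good f g then h.choose else 0 with hrep
  refine ⟨rep '' {f | f ∈ t ∧ ∃ g, Good f g}, ?_, ?_, ?_⟩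
  · exact ((t.finite_toSet.subset fun f hf => hf.1)).image _
  · rintro _ ⟨f, ⟨-, hf⟩, rfl⟩
    simp only [hrep]
    rw [dif_pos hf]
    exact hf.choose_spec.1
  · intro f hf hfe hfA
    obtain ⟨f', hf', hff⟩ := mem_iUnion₂.1 (hcov hf)
    have hg : Good f' f := ⟨hfe, hfA, fun x => by
      rw [← dist_eq_norm]
      exact (ContinuousMap.dist_apply_le_dist x).trans (le_of_lt hff)⟩
    have hex : ∃ g, Good f' g := ⟨f, hg⟩
    have hsp := hex.choose_spec
    have hsub : ∀ g : S3 → R4, (∀ r : ℝ, 0 < r → r ≤ r₀ → AlmAH H r g) →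
        AlmH (sphere (0 : R4) 1) (1 / 200) H r₁ (ext g) := fun g hg =>
      almH_of fun r hr hr1 => hg r hr (hr1.trans (min_le_left _ _))
    obtain ⟨G, ⟨g1, G', g2, g3, g4, C, hC, g5⟩, hG⟩ := hδ2 f' (ht f' hf') (ext hex.choose) (ext f)
      (emb_of hsp.1) (emb_of hfe) (hsub _ hsp.2.1) (hsub _ hfA)
      (fun x hx => by
        rw [ext_apply' _ hx, ext_apply' _ hx]
        exact hsp.2.2 _)
      (fun x hx => by
        rw [ext_apply' _ hx, ext_apply' _ hx]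
        exact hg.2.2 _)
    refine ⟨rep f', ⟨f', ⟨hf', hex⟩, rfl⟩, mkDiff G G' g1 g2 g3 g4, C, hC, g5, fun x => ?_⟩
    have := hG x.1 x.2
    rw [ext_apply, ext_apply] at this
    simp only [hrep]
    rw [dif_pos hex]
    exact this

theorem data : ∃ (η : R4 → ℝ) (V : Set R4), Data η V := by
  obtain ⟨η, h1, h2⟩ := kx
  exact ⟨η, _, ⟨h1, h2, px_sphere⟩⟩

end main

end Pool.Agent.L7h32.AA
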