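import Mathlib

/-!
# Project AA: almost affine maps (statements)

`E`, `F` are finite dimensional real normed spaces. `K ⊂ U ⊂ E`, `K` compact, `U` open, `N : U → K` a
smooth retraction (`Ret K U N`); for example `K` the unit sphere of a Euclidean space and
`N x = x / ‖x‖`, or `K` the set of rank one projections. A map `f` on `K` is smooth if `f ∘ N` is
smooth on `U`; it is a smooth embedding (`Emb`) if moreover `c ‖x - y‖ ≤ ‖f x - f y‖` on `K`.
`CDiff G`: `G` is a diffeomorphism of `F` equal to the identity off a compact set.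
`moll μ η Φ t x = ∫ η(y) Φ(x + t y) dy`.
-/

set_option autoImplicit false

open Set Filter Topology Metric MeasureTheory
open scoped ContDiff Manifold

noncomputable section

namespace Pool.Agent.L7h32.AA

section gen

variable {E F : Type} [NormedAddCommGroup E] [NormedSpace ℝ E] [NormedAddCommGroup F]
  [NormedSpace ℝ F]

/-- `N` is a smooth retraction of the open set `U` onto the compact set `K` -/
structure Ret (K U : Set E) (N : E → E) : Prop where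
  cpt : IsCompact K
  opn : IsOpen U
  sub : K ⊆ U
  smooth : ContDiffOn ℝ ∞ N U
  maps : ∀ x ∈ U, N x ∈ K
  fix : ∀ x ∈ K, N x = x

/-- `f` is a smooth embedding of `K` -/
structure Emb (K U : Set E) (N : E → E) (f : E → F) : Prop where
  smooth : ContDiffOn ℝ ∞ (fun x => f (N x)) U
  low : ∃ c : ℝ, 0 < c ∧ ∀ x ∈ K, ∀ y ∈ K, c * ‖x - y‖ ≤ ‖f x - f y‖

/-- `h` is at most `δ` and has Lipschitz constant at most `δ` on `K` -/
def LipSm (K : Set E) (δ : ℝ) (h : E → F) : Prop :=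
  (∀ x ∈ K, ‖h x‖ ≤ δ) ∧ ∀ x ∈ K, ∀ y ∈ K, ‖h x - h y‖ ≤ δ * ‖x - y‖

/-- `G` is a diffeomorphism equal to the identity off a compact set -/
def CDiff (G : F → F) : Prop :=
  ContDiff ℝ ∞ G ∧ ∃ G' : F → F, ContDiff ℝ ∞ G' ∧ (∀ x, G' (G x) = x) ∧ (∀ x, G (G' x) = x) ∧
    ∃ C : Set F, IsCompact C ∧ ∀ x, x ∉ C → G x = x

/-- mollification -/
def moll [MeasurableSpace E] (μ : Measure E) (η : E → ℝ) (Φ : E → F) (t : ℝ) (x : E) : F :=
  ∫ y, η y • Φ (x + t • y) ∂μ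

/-- a mollifier -/
structure Ker [MeasurableSpace E] (μ : Measure E) (η : E → ℝ) : Prop where
  smooth : ContDiff ℝ ∞ η
  nonneg : ∀ y, 0 ≤ η y
  supp : ∀ y, 1 < ‖y‖ → η y = 0
  mass : ∫ y, η y ∂μ = 1

/-- `φ` is `ε`-almost affine on `K` at the scales `≤ r₀`: on every ball it is close to an affine map,
the error being small relative to the least expansion of the affine map -/
def Alm (K : Set E) (ε r₀ : ℝ) (φ : E → F) : Prop :=
  ∀ x ∈ K, ∀ r : ℝ, 0 < r → r ≤ r₀ → ∃ (l : ℝ) (T : E →L[ℝ] F) (b : F), 0 < l ∧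
    (∀ v, l * ‖v‖ ≤ ‖T v‖) ∧ ∀ y ∈ K, ‖y - x‖ ≤ r → ‖φ y - (T y + b)‖ ≤ ε * l * r

/-- the same with affine maps of distortion at most `H` -/
def AlmH (K : Set E) (ε H r₀ : ℝ) (φ : E → F) : Prop :=
  ∀ x ∈ K, ∀ r : ℝ, 0 < r → r ≤ r₀ → ∃ (l : ℝ) (T : E →L[ℝ] F) (b : F), 0 < l ∧
    (∀ v, l * ‖v‖ ≤ ‖T v‖) ∧ (∀ v, ‖T v‖ ≤ H * l * ‖v‖) ∧
    ∀ y ∈ K, ‖y - x‖ ≤ r → ‖φ y - (T y + b)‖ ≤ ε * l * r

end gen

/-- S_EXT: a smooth embedding has a smooth left inverse defined on all of `F`.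
Proof. Locally near `y ∉ f(K)` take `0`. Near `y = f(x₀)`: `Ψ(x) = (f(N x), x - N x)`, `U → F × E` is
smooth and has injective derivative at `x₀`: if `D(f∘N)(x₀)v = 0` and `v = DN(x₀)v` then with
`z_s = N(x₀ + s v) ∈ K`, `z_s = x₀ + s v + o(s)` and `f(z_s) = f(x₀) + o(s)`, so `c |s v| ≤ o(s)`,
`v = 0`. Take a linear left inverse `P` of `DΨ(x₀)`; `P ∘ Ψ : E → E` has derivative `1` at `x₀`, local
inverse `q` (`HasStrictFDerivAt.to_localInverse`, `ContDiffAt.toOpenPartialHomeomorph`), and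
`p(y) = q(P(y, 0))` works for the points `y = f(x)`, `x ∈ K` near `x₀`, so (compactness, injectivity)
on a neighbourhood of `f(x₀)`. Patch: `exists_contMDiffMap_forall_mem_convex_of_local` with the convex
sets `t y = {z | ∀ x ∈ K, f x = y → z = x}`. -/
def S_EXT : Prop :=
  ∀ (E F : Type) [NormedAddCommGroup E] [NormedSpace ℝ E] [FiniteDimensional ℝ E]
    [NormedAddCommGroup F] [NormedSpace ℝ F] [FiniteDimensional ℝ F]
    (K U : Set E) (N : E → E) (f : E → F), Ret K U N → Emb K U N f →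
    ∃ p : F → E, ContDiff ℝ ∞ p ∧ ∀ x ∈ K, p (f x) = x

/-- S_STEP: maps which are `C¹`-close to a smooth embedding differ from it by a compactly supported
diffeomorphism. Proof: `G(y) = y + χ(y) h(N(p y))`, `h = g - f`, `p` from S_EXT, `χ` a smooth cutoff
with compact support in a compact neighbourhood of `f(K)` mapped by `p` into a compact neighbourhood
`V ⊂ U` of `K`, `χ = 1` on `f(K)`. `‖D(h∘N)‖ ≤ C δ` on a neighbourhood of `K` (`h` is `δ`-Lipschitz on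
`K`, `N` Lipschitz near `K`), so `‖D(G - 1)‖ ≤ 1/2` everywhere for small `δ`, so `G` is bijective
(contraction principle, or `ApproximatesLinearOn.toHomeomorph`) with smooth inverse. -/
def S_STEP : Prop :=
  ∀ (E F : Type) [NormedAddCommGroup E] [NormedSpace ℝ E] [FiniteDimensional ℝ E]
    [NormedAddCommGroup F] [NormedSpace ℝ F] [FiniteDimensional ℝ F]
    (K U : Set E) (N : E → E) (f : E → F), Ret K U N → Emb K U N f →
    ∃ δ : ℝ, 0 < δ ∧ ∀ g : E → F, ContDiffOn ℝ ∞ (fun x => g (N x)) U →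
      LipSm K δ (fun x => g x - f x) → ∃ G : F → F, CDiff G ∧ ∀ x ∈ K, G (f x) = g x

/-- S_PATH: isotopy extension. Proof: by S_STEP the classes of the relation
`∃ G, CDiff G ∧ ∀ x ∈ K, G (f s x) = f s' x` on `[0,1]` are open; `[0,1]` is connected. -/
def S_PATH : Prop :=
  ∀ (E F : Type) [NormedAddCommGroup E] [NormedSpace ℝ E] [FiniteDimensional ℝ E]
    [NormedAddCommGroup F] [NormedSpace ℝ F] [FiniteDimensional ℝ F]
    (K U : Set E) (N : E → E) (f : ℝ → E → F), Ret K U N → (∀ s ∈ Icc (0 : ℝ) 1, Emb K U N (f s)) →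
    (∀ s ∈ Icc (0 : ℝ) 1, ∀ δ : ℝ, 0 < δ → ∃ τ : ℝ, 0 < τ ∧ ∀ s' ∈ Icc (0 : ℝ) 1, |s' - s| < τ →
      LipSm K δ (fun x => f s' x - f s x)) →
    ∃ G : F → F, CDiff G ∧ ∀ x ∈ K, G (f 0 x) = f 1 x

/-- S_LOW: an injective immersion of `K` is a smooth embedding. Proof: near `x ∈ K`: `Ψ` as in S_EXT is
injective to first order, strictly differentiable, so `‖Ψ y - Ψ z‖ ≥ c' ‖y - z‖` near `x`, and
`Ψ y - Ψ z = (f y - f z, 0)` on `K`. Off the diagonal: compactness of `K × K`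
(`IsCompact.induction_on`). -/
def S_LOW : Prop :=
  ∀ (E F : Type) [NormedAddCommGroup E] [NormedSpace ℝ E] [FiniteDimensional ℝ E]
    [NormedAddCommGroup F] [NormedSpace ℝ F] [FiniteDimensional ℝ F]
    (K U : Set E) (N : E → E) (f : E → F), Ret K U N → ContDiffOn ℝ ∞ (fun x => f (N x)) U →
    (∀ x ∈ K, ∀ y ∈ K, f x = f y → x = y) →
    (∀ x ∈ K, ∃ c : ℝ, 0 < c ∧ ∃ ρ : ℝ, 0 < ρ ∧ ∀ y ∈ K, ‖y - x‖ < ρ →
      c * ‖x - y‖ ≤ ‖f x - f y‖) →
    Emb K U N f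

/-- S_MOL: mollifications are jointly smooth. Proof: `contDiffOn_convolution_right_with_param_comp`
with `f = 1` and the parameter `(t, x)`. -/
def S_MOL : Prop :=
  ∀ (E F : Type) [NormedAddCommGroup E] [NormedSpace ℝ E] [FiniteDimensional ℝ E]
    [MeasurableSpace E] [BorelSpace E] (μ : Measure E) [μ.IsAddHaarMeasure]
    [NormedAddCommGroup F] [NormedSpace ℝ F] [FiniteDimensional ℝ F]
    (η : E → ℝ), Ker μ η → ∀ (U V : Set E) (ρ : ℝ) (Φ : E → F), IsOpen U → IsOpen V → 0 < ρ →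
    (∀ x ∈ V, ∀ z : E, ‖z‖ < ρ → x + z ∈ U) → ContDiffOn ℝ ∞ Φ U →
    ContDiffOn ℝ ∞ (fun p : ℝ × E => moll μ η Φ p.1 p.2) (Ioo (-ρ) ρ ×ˢ V)

/-- S_CTS: a jointly smooth family is continuous in the Lipschitz norm on compact sets. -/
def S_CTS : Prop :=
  ∀ (E F : Type) [NormedAddCommGroup E] [NormedSpace ℝ E] [FiniteDimensional ℝ E]
    [NormedAddCommGroup F] [NormedSpace ℝ F] [FiniteDimensional ℝ F]
    (K V : Set E) (J : Set ℝ) (M : ℝ × E → F), IsCompact K → IsOpen V → K ⊆ V → IsOpen J →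
    ContDiffOn ℝ ∞ M (J ×ˢ V) → ∀ s ∈ J, ∀ δ : ℝ, 0 < δ → ∃ τ : ℝ, 0 < τ ∧ ∀ s' ∈ J, |s' - s| < τ →
      LipSm K δ (fun x => M (s', x) - M (s, x))

/-- S_PI: translations followed by the retraction are almost isometric.
Proof: `h(x) = N(x + z) - N(x)` has derivative `DN(x + z) - DN(x)`, small by uniform continuity on a
compact neighbourhood of `K` (near pairs, on small balls); far pairs: `‖N(x + z) - x‖ ≤ C ‖z‖`. -/
def S_PI : Prop :=
  ∀ (E : Type) [NormedAddCommGroup E] [NormedSpace ℝ E] [FiniteDimensional ℝ E]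
    (K U : Set E) (N : E → E), Ret K U N →
    ∃ (t₁ C : ℝ) (V : Set E), 0 < t₁ ∧ 1 ≤ C ∧ IsOpen V ∧ K ⊆ V ∧
      (∀ x ∈ V, ∀ z : E, ‖z‖ < t₁ → x + z ∈ U) ∧
      (∀ x ∈ K, ∀ z : E, ‖z‖ < t₁ → ‖N (x + z) - x‖ ≤ C * ‖z‖) ∧
      ∀ x ∈ K, ∀ y ∈ K, ∀ z : E, ‖z‖ < t₁ →
        ‖(N (x + z) - N (y + z)) - (x - y)‖ ≤ ‖x - y‖ / 2

/-- S_KER: there is a mollifier. -/
def S_KER : Prop :=
  ∀ (E : Type) [NormedAddCommGroup E] [NormedSpace ℝ E] [FiniteDimensional ℝ E]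
    [MeasurableSpace E] [BorelSpace E] (μ : Measure E) [μ.IsAddHaarMeasure],
    ∃ η : E → ℝ, Ker μ η

/-- S_SVD: every linear automorphism of a Euclidean space is joined to an isometry. Proof: an
orthonormal basis `e_i` of eigenvectors of `A^* A`: `A e_i = σ_i f_i` with `f_i` orthonormal,
`σ_i > 0`; `B s e_i = ((1 - s) σ_i + s) f_i`. -/
def S_SVD : Prop :=
  ∀ (n : ℕ) (A : EuclideanSpace ℝ (Fin n) →L[ℝ] EuclideanSpace ℝ (Fin n)) (l : ℝ), 0 < l →
    (∀ v, l * ‖v‖ ≤ ‖A v‖) →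
    ∃ O : EuclideanSpace ℝ (Fin n) ≃ₗᵢ[ℝ] EuclideanSpace ℝ (Fin n), ∀ s ∈ Icc (0 : ℝ) 1,
      ∃ c : ℝ, 0 < c ∧ ∀ v, c * ‖v‖ ≤ ‖(1 - s) • A v + s • O v‖

/-- S_SPH: conversion for the 3-sphere: a smooth injective immersion of the sphere (as a manifold) is
a smooth embedding in the sense of `Emb`, with `K` the unit sphere, `U = {0}ᶜ`, `N x = x / ‖x‖`. -/
def S_SPH : Prop :=
  ∀ (f : sphere (0 : EuclideanSpace ℝ (Fin (3 + 1))) 1 → EuclideanSpace ℝ (Fin 4)),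
    ContMDiff (𝓡 3) (𝓡 4) ∞ f → Function.Injective f →
    (∀ x, Function.Injective (mfderiv (𝓡 3) (𝓡 4) f x)) →
    ∀ F : EuclideanSpace ℝ (Fin (3 + 1)) → EuclideanSpace ℝ (Fin 4),
    (∀ x : sphere (0 : EuclideanSpace ℝ (Fin (3 + 1))) 1, F x.1 = f x) →
    Ret (sphere (0 : EuclideanSpace ℝ (Fin (3 + 1))) 1) {0}ᶜ (fun x => ‖x‖⁻¹ • x) ∧
    Emb (sphere (0 : EuclideanSpace ℝ (Fin (3 + 1))) 1) {0}ᶜ (fun x => ‖x‖⁻¹ • x) F

end Pool.Agent.L7h32.AA
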